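import Pool.Agent.SawKes.Tables

/-!
Typical walks have many `3 × 4` rectangles with an edge over which a bump can be inserted.
-/

set_option autoImplicit false

open SawNu

namespace Pool.Agent.SawKes

lemma glob_inj {x : Site} {c d : ℕ} (hc : c < 12) (hd : d < 12) (h : glob x c = glob x d) :
    c = d := by
  rw [← loc_glob x c hc, ← loc_glob x d hd, h]

lemma chain_map {x : Site} {l : List ℕ} (h : l.IsChain (fun c d => adjN c d = true)) :
    (l.map (glob x)).IsChain Adj := by
  rw [List.isChain_map]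
  exact h.imp (fun c d => adj_glob x)

lemma nodup_map {x : Site} {l : List ℕ} (h : l.Nodup) (h' : ∀ c ∈ l, c < 12) :
    (l.map (glob x)).Nodup :=
  List.Nodup.map_on (fun c hc d hd he => glob_inj (h' c hc) (h' d hd) he) h

structure Tab1 (a b : ℕ) (l : List ℕ) : Prop where
  head : l.head? = some a
  last : l.getLast? = some b
  chain : l.IsChain (fun c d => adjN c d = true)
  nodup : l.Nodup
  lt : ∀ c ∈ l, c < 12
  cov : ∀ c, 3 ≤ c → c < 9 → c ∈ l
  len : l.length ≤ 12

lemma tab1_spec {a b : ℕ} (ha : a < 12) (hb : b < 12) (hab : a ≠ b) :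
    Tab1 a b (tab1.getD (12 * a + b) []) := by
  have h := tab1_ok
  rw [List.all_eq_true] at h
  have h1 := h a (List.mem_range.2 ha)
  rw [List.all_eq_true] at h1
  have h2 := h1 b (List.mem_range.2 hb)
  rw [Bool.or_eq_true] at h2
  rcases h2 with h2 | h2
  · exact absurd (by simpa using h2) hab
  · generalize tab1.getD (12 * a + b) [] = l at h2 ⊢
    unfold ok1 at h2
    simp only [Bool.and_eq_true, beq_iff_eq, decide_eq_true_eq, List.all_eq_true,
      List.mem_range, List.contains_iff_mem] at h2
    obtain ⟨⟨⟨⟨⟨⟨h3, h4⟩, h5⟩, h6⟩, h7⟩, h8⟩, h9⟩ := h2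
    refine ⟨h3, h4, h5, h6, h7, ?_, h9⟩
    intro c hc1 hc2
    have := h8 (c - 3) (by omega)
    rwa [Nat.sub_add_cancel hc1] at this

lemma loc_ne {x a b : Site} (ha : sq a = x) (hb : sq b = x) (hab : a ≠ b) : loc a ≠ loc b := by
  intro h
  apply hab
  rw [← glob_loc a, ← glob_loc b, ha, hb, h]

lemma glob_loc' {x a : Site} (ha : sq a = x) : glob x (loc a) = a := by
  rw [← ha]; exact glob_loc a

/-- the regions of the first surgery: whole rectangles -/
def Reg1 : Reg where
  r := fun x p => sq p = x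
  sq_of := fun _ _ h => h
  path := fun x a b => (tab1.getD (12 * loc a + loc b) []).map (glob x)
  path_head := by
    intro x a b ha hb hab
    have h := tab1_spec (loc_lt a) (loc_lt b) (loc_ne ha hb hab)
    rw [List.head?_map, h.head, Option.map_some, glob_loc' ha]
  path_last := by
    intro x a b ha hb hab
    have h := tab1_spec (loc_lt a) (loc_lt b) (loc_ne ha hb hab)
    rw [List.getLast?_map, h.last, Option.map_some, glob_loc' hb]
  path_chain := by
    intro x a b ha hb hab
    exact chain_map (tab1_spec (loc_lt a) (loc_lt b) (loc_ne ha hb hab)).chain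
  path_nodup := by
    intro x a b ha hb hab
    have h := tab1_spec (loc_lt a) (loc_lt b) (loc_ne ha hb hab)
    exact nodup_map h.nodup h.lt
  path_mem := by
    intro x a b ha hb hab p hp
    have h := tab1_spec (loc_lt a) (loc_lt b) (loc_ne ha hb hab)
    rw [List.mem_map] at hp
    obtain ⟨c, hc, rfl⟩ := hp
    exact sq_glob x c (h.lt c hc)
  path_len := by
    intro x a b ha hb hab
    rw [List.length_map]
    exact (tab1_spec (loc_lt a) (loc_lt b) (loc_ne ha hb hab)).len

/-- the middle part of the rectangle -/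
def inR (x p : Site) : Prop := sq p = x ∧ 3 ≤ loc p ∧ loc p < 9

structure Tab2 (a b : ℕ) (l : List ℕ) (A : List ℕ) (c d : ℕ) (B : List ℕ) (e f : ℕ) : Prop where
  eq : l = A ++ [c, d] ++ B
  head : l.head? = some a
  last : l.getLast? = some b
  chain : l.IsChain (fun c d => adjN c d = true)
  nodup : l.Nodup
  lt : ∀ c ∈ l, 3 ≤ c ∧ c < 9
  len : l.length ≤ 12
  he : 3 ≤ e ∧ e < 9
  hf : 3 ≤ f ∧ f < 9
  ne : e ∉ l
  nf : f ∉ l
  ce : adjN c e = true
  ef : adjN e f = true
  fd : adjN f d = true

/-- path of the second table -/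
def p2 (a b : ℕ) : List ℕ :=
  (tab2.getD (12 * a + b) e0).1 ++
    [(tab2.getD (12 * a + b) e0).2.1, (tab2.getD (12 * a + b) e0).2.2.1] ++
    (tab2.getD (12 * a + b) e0).2.2.2.1

lemma tab2_spec {a b : ℕ} (ha : 3 ≤ a ∧ a < 9) (hb : 3 ≤ b ∧ b < 9) (hab : a ≠ b) :
    ∃ A c d B e f, Tab2 a b (p2 a b) A c d B e f := by
  have h := tab2_ok
  rw [List.all_eq_true] at h
  have h1 := h (a - 3) (List.mem_range.2 (by omega))
  rw [List.all_eq_true] at h1
  have h2 := h1 (b - 3) (List.mem_range.2 (by omega))
  rw [Bool.or_eq_true] at h2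
  rw [Nat.sub_add_cancel ha.1, Nat.sub_add_cancel hb.1] at h2
  rcases h2 with h2 | h2
  · exact absurd (by simp only [beq_iff_eq] at h2; omega) hab
  · unfold p2
    generalize tab2.getD (12 * a + b) e0 = o at h2 ⊢
    obtain ⟨A, c, d, B, e, f⟩ := o
    unfold ok2 at h2
    simp only [Bool.and_eq_true, beq_iff_eq, decide_eq_true_eq, List.all_eq_true,
      Bool.not_eq_true', List.contains_eq_mem, decide_eq_false_iff_not] at h2
    obtain ⟨⟨⟨⟨⟨⟨⟨⟨⟨⟨⟨⟨h3, h4⟩, h5⟩, h6⟩, h7⟩, h8⟩, h9⟩, h10⟩, h11⟩, h12⟩, h13⟩, h14⟩, h15⟩ := h2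
    exact ⟨A, c, d, B, e, f, rfl, h3, h4, h5, h6, h7, h8, h9, h10, h11, h12, h13, h14, h15⟩

/-- the regions of the second surgery: the middle parts of the rectangles -/
def Reg2 : Reg where
  r := inR
  sq_of := fun _ _ h => h.1
  path := fun x a b => (p2 (loc a) (loc b)).map (glob x)
  path_head := by
    intro x a b ha hb hab
    obtain ⟨A, c, d, B, e, f, h⟩ := tab2_spec ha.2 hb.2 (loc_ne ha.1 hb.1 hab)
    rw [List.head?_map, h.head, Option.map_some, glob_loc' ha.1]
  path_last := by
    intro x a b ha hb hab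
    obtain ⟨A, c, d, B, e, f, h⟩ := tab2_spec ha.2 hb.2 (loc_ne ha.1 hb.1 hab)
    rw [List.getLast?_map, h.last, Option.map_some, glob_loc' hb.1]
  path_chain := by
    intro x a b ha hb hab
    obtain ⟨A, c, d, B, e, f, h⟩ := tab2_spec ha.2 hb.2 (loc_ne ha.1 hb.1 hab)
    exact chain_map h.chain
  path_nodup := by
    intro x a b ha hb hab
    obtain ⟨A, c, d, B, e, f, h⟩ := tab2_spec ha.2 hb.2 (loc_ne ha.1 hb.1 hab)
    exact nodup_map h.nodup (fun c hc => by have := h.lt c hc; omega)
  path_mem := by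
    intro x a b ha hb hab p hp
    obtain ⟨A, c, d, B, e, f, h⟩ := tab2_spec ha.2 hb.2 (loc_ne ha.1 hb.1 hab)
    rw [List.mem_map] at hp
    obtain ⟨c, hc, rfl⟩ := hp
    have h9 := h.lt c hc
    refine ⟨sq_glob x c (by omega), ?_⟩
    rw [loc_glob x c (by omega)]
    exact h9
  path_len := by
    intro x a b ha hb hab
    obtain ⟨A, c, d, B, e, f, h⟩ := tab2_spec ha.2 hb.2 (loc_ne ha.1 hb.1 hab)
    rw [List.length_map]
    exact h.len

/-- no surgery -/
def Reg0 : Reg where
  r := fun _ _ => False
  sq_of := fun _ _ h => h.elim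
  path := fun _ _ _ => []
  path_head := fun _ _ _ h => h.elim
  path_last := fun _ _ _ h => h.elim
  path_chain := fun _ _ _ h => h.elim
  path_nodup := fun _ _ _ h => h.elim
  path_mem := fun _ _ _ h => h.elim
  path_len := fun _ _ _ h => h.elim

lemma Reg0_U (m : ℕ) (l : List Site) : Reg0.U m l = ∅ := by
  rw [Finset.eq_empty_iff_forall_notMem]
  intro x hx
  rw [Reg.mem_U] at hx
  have : vc (Reg0.r x) l = 0 := vc_eq_zero (fun p _ h => h)
  omega

/-- all the sites of the middle part are visited -/
def Tinf (x : Site) (l : List Site) : Prop := ∀ c, 3 ≤ c → c < 9 → glob x c ∈ l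

/-- at least `k` sites are visited, or all the sites of the middle part -/
def Tk (k : ℕ) (x : Site) (l : List Site) : Prop :=
  k ≤ vc (fun p => sq p = x) l ∨ Tinf x l

/-- a bump can be inserted inside the rectangle -/
def Tend (x : Site) (l : List Site) : Prop :=
  ∃ A c d B e f, l = A ++ [c, d] ++ B ∧ sq c = x ∧ sq d = x ∧ sq e = x ∧ sq f = x ∧ e ∉ l ∧
    f ∉ l ∧ Adj c e ∧ Adj e f ∧ Adj f d

open scoped Classical in
lemma vc_le_of_inj {r : Site → Prop} {l : List Site} (s : Finset Site) (h : ∀ p ∈ s, p ∈ l ∧ r p) :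
    s.card ≤ vc r l := by
  unfold vc
  rw [List.countP_eq_length_filter]
  calc s.card ≤ ((l.filter (fun p => decide (r p))).toFinset).card := by
        apply Finset.card_le_card
        intro p hp
        rw [List.mem_toFinset, List.mem_filter]
        exact ⟨(h p hp).1, by simpa using (h p hp).2⟩
    _ ≤ _ := List.toFinset_card_le _

lemma Tinf_vc {x : Site} {l : List Site} (h : Tinf x l) : 2 ≤ vc (inR x) l := by
  classical
  have h1 : ({glob x 3, glob x 4} : Finset Site).card = 2 := by
    rw [Finset.card_pair]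
    intro he
    have := glob_inj (by norm_num) (by norm_num) he
    omega
  rw [← h1]
  apply vc_le_of_inj
  intro p hp
  rw [Finset.mem_insert, Finset.mem_singleton] at hp
  rcases hp with rfl | rfl
  · exact ⟨h 3 (by norm_num) (by norm_num), sq_glob x 3 (by norm_num),
      by rw [loc_glob x 3 (by norm_num)]; omega⟩
  · exact ⟨h 4 (by norm_num) (by norm_num), sq_glob x 4 (by norm_num),
      by rw [loc_glob x 4 (by norm_num)]; omega⟩

lemma vc_mono {r r' : Site → Prop} {l : List Site} (h : ∀ p ∈ l, r p → r' p) :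
    vc r l ≤ vc r' l := by
  classical
  unfold vc
  apply List.countP_mono_left
  intro p hp hr
  simpa using h p hp (by simpa using hr)

lemma Tinf_vc' {x : Site} {l : List Site} (h : Tinf x l) : 2 ≤ vc (fun p => sq p = x) l :=
  (Tinf_vc h).trans (vc_mono (fun _ _ h => h.1))

lemma Blk1 {k : ℕ} (hk : 2 ≤ k) : Blk Reg1 (Tk k) (Tk (k + 1)) := by
  intro x A b B hn h
  have h2 : 2 ≤ vc (fun p => sq p = x) b := by
    rcases h with h | h
    · omega
    · exact Tinf_vc' h
  refine ⟨h2, ?_⟩
  rcases h with h | h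
  · by_cases hA : Avoid (Reg1.r x) A
    · by_cases hB : Avoid (Reg1.r x) B
      · right
        refine ⟨?_, hA, hB⟩
        change 2 ≤ vc (fun p => sq p = x) (A ++ b ++ B)
        rw [vc_append, vc_append]; omega
      · left; left
        have : 0 < vc (fun p => sq p = x) B := by
          rw [Nat.pos_iff_ne_zero]
          intro h0
          apply hB
          intro p hp hr
          unfold vc at h0
          rw [List.countP_eq_zero] at h0
          exact h0 p hp (by simpa using (show sq p = x from hr))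
        rw [vc_append, vc_append]; omega
    · left; left
      have : 0 < vc (fun p => sq p = x) A := by
        rw [Nat.pos_iff_ne_zero]
        intro h0
        apply hA
        intro p hp hr
        unfold vc at h0
        rw [List.countP_eq_zero] at h0
        exact h0 p hp (by simpa using (show sq p = x from hr))
      rw [vc_append, vc_append]; omega
  · left; right
    intro c h3 h4
    exact List.mem_append_left _ (List.mem_append_right _ (h c h3 h4))

lemma Hit1 (k : ℕ) : Hit Reg1 (Tk k) := by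
  intro x A B a b ha hb hab _ _
  right
  intro c h3 h4
  have h := tab1_spec (loc_lt a) (loc_lt b) (loc_ne ha hb hab)
  apply List.mem_append_left
  apply List.mem_append_right
  exact List.mem_map_of_mem (h.cov c h3 h4)

lemma Grow_Tinf {D : Reg} {x y : Site} {A s B π : List Site} (hyx : y ≠ x)
    (hπ : ∀ q ∈ π, D.r x q) (h : Tinf y (A ++ π ++ B)) : Tinf y (A ++ s ++ B) := by
  intro c h3 h4
  have h1 := h c h3 h4
  rw [List.mem_append, List.mem_append] at h1 ⊢
  rcases h1 with (h1 | h1) | h1
  · exact Or.inl (Or.inl h1)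
  · exfalso
    apply hyx
    have := D.sq_of x _ (hπ _ h1)
    rw [sq_glob y c (by omega)] at this
    exact this
  · exact Or.inr h1

lemma Grow1 (D : Reg) (k : ℕ) : Grow D (Tk k) := by
  intro x y A s B π hyx _ hπ _ h
  rcases h with h | h
  · left
    have : vc (fun p => sq p = y) π = 0 := by
      apply vc_eq_zero
      intro p hp he
      exact hyx (he.symm.trans (D.sq_of x p (hπ p hp)))
    rw [vc_append, vc_append, this] at h
    rw [vc_append, vc_append]
    omega
  · right
    exact Grow_Tinf hyx hπ h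

/-- a step between two different rectangles -/
lemma cross {p q : Site} (h : Adj p q) (hs : sq p ≠ sq q) :
    (p.1 % 3 = 2 ∧ q.1 = p.1 + 1 ∧ q.2 = p.2) ∨ (p.1 % 3 = 0 ∧ q.1 = p.1 - 1 ∧ q.2 = p.2) ∨
    (p.2 % 4 = 3 ∧ q.1 = p.1 ∧ q.2 = p.2 + 1) ∨ (p.2 % 4 = 0 ∧ q.1 = p.1 ∧ q.2 = p.2 - 1) := by
  obtain ⟨a, b⟩ := p
  obtain ⟨c, d⟩ := q
  unfold Adj at h
  simp only [Prod.fst_sub, Prod.snd_sub] at h
  have hs' : ¬ (a / 3 = c / 3 ∧ b / 4 = d / 4) := by
    intro h0
    apply hs
    unfold sq
    simp only [h0.1, h0.2]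
  simp only
  rcases abs_cases (c - a) with h3 | h3 <;> rcases abs_cases (d - b) with h4 | h4 <;> omega

/-- five consecutive sites: two of them in one rectangle -/
lemma five {p0 p1 p2 p3 p4 : Site} (h01 : Adj p0 p1) (h12 : Adj p1 p2) (h23 : Adj p2 p3)
    (h34 : Adj p3 p4) (hn : [p0, p1, p2, p3, p4].Nodup) :
    sq p0 = sq p1 ∨ sq p1 = sq p2 ∨ sq p2 = sq p3 ∨ sq p3 = sq p4 := by
  by_contra hc
  rw [not_or, not_or, not_or] at hc
  obtain ⟨k1, k2, k3, k4⟩ := hc
  have c1 := cross h01 k1
  have c2 := cross h12 k2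
  have c3 := cross h23 k3
  have c4 := cross h34 k4
  have n02 : p0 ≠ p2 := by
    intro h0; subst h0; simp at hn
  have n13 : p1 ≠ p3 := by
    intro h0; subst h0; simp at hn
  have n24 : p2 ≠ p4 := by
    intro h0; subst h0; simp at hn
  have n04 : p0 ≠ p4 := by
    intro h0; subst h0; simp at hn
  clear hn h01 h12 h23 h34 k1 k2 k3 k4
  have d : ∀ p q : Site, p ≠ q → ¬ (p.1 = q.1 ∧ p.2 = q.2) := by
    intro p q h h'
    exact h (Prod.ext h'.1 h'.2)
  have n02 := d _ _ n02
  have n13 := d _ _ n13
  have n24 := d _ _ n24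
  have n04 := d _ _ n04
  clear d
  obtain ⟨a0, b0⟩ := p0
  obtain ⟨a1, b1⟩ := p1
  obtain ⟨a2, b2⟩ := p2
  obtain ⟨a3, b3⟩ := p3
  obtain ⟨a4, b4⟩ := p4
  simp only at *
  rcases c1 with c1 | c1 | c1 | c1 <;> rcases c2 with c2 | c2 | c2 | c2 <;> omega

lemma Blk0 : Blk Reg0 (fun x b => 2 ≤ vc (fun p => sq p = x) b) (Tk 2) := by
  intro x A b B _ h
  refine ⟨h, Or.inl (Or.inl ?_)⟩
  rw [vc_append, vc_append]
  omega

lemma two_le_vc {x p q : Site} {l : List Site} (hp : p ∈ l) (hq : q ∈ l) (hpq : p ≠ q)
    (h1 : sq p = x) (h2 : sq q = x) : 2 ≤ vc (fun p => sq p = x) l := by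
  classical
  rw [← Finset.card_pair hpq]
  apply vc_le_of_inj
  intro r hr
  rw [Finset.mem_insert, Finset.mem_singleton] at hr
  rcases hr with rfl | rfl
  · exact ⟨hp, h1⟩
  · exact ⟨hq, h2⟩

/-- base case -/
theorem AT_two : AT (Tk 2) := by
  classical
  refine ⟨1 / 100, by norm_num, 10, fun n hn u S hS => ?_⟩
  have hempty : S = ∅ := by
    rw [Finset.eq_empty_iff_forall_notMem]
    intro l hl
    obtain ⟨h1, h2⟩ := hS l hl
    rw [mem_walks] at h1
    obtain ⟨k1, k2, k3, k4⟩ := h1
    obtain ⟨q, hq⟩ : ∃ q : ℕ, q = (n + 1) / 5 := ⟨_, rfl⟩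
    have h3 := good_le (D := Reg0) Blk0 4 q k4
    rw [Reg0_U, Finset.card_empty, zero_add] at h3
    have h4 : GI (fun x b => 2 ≤ vc (fun p => sq p = x) b) (4 + 1) q l = Finset.range q := by
      unfold GI
      rw [Finset.filter_true_of_mem]
      intro i hi
      rw [Finset.mem_range] at hi
      have hd := blk_decomp (4 + 1) i l
      have hlen : (blk (4 + 1) i l).length = 5 := by
        unfold blk
        rw [List.length_take, List.length_drop]
        omega
      have hch : (blk (4 + 1) i l).IsChain Adj := by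
        have := k3
        rw [hd] at this
        exact this.left_of_append.right_of_append
      have hnd : (blk (4 + 1) i l).Nodup := by
        have := k4
        rw [hd] at this
        exact (List.nodup_append.1 (List.nodup_append.1 this).1).2.1
      generalize blk (4 + 1) i l = b at hlen hch hnd ⊢
      match b, hlen with
      | [p0, p1, p2, p3, p4], _ =>
        simp only [List.isChain_cons_cons] at hch
        obtain ⟨a1, a2, a3, a4, -⟩ := hch
        have hne : p0 ≠ p1 ∧ p1 ≠ p2 ∧ p2 ≠ p3 ∧ p3 ≠ p4 := by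
          simp only [List.nodup_cons, List.mem_cons, not_or] at hnd
          tauto
        rcases five a1 a2 a3 a4 hnd with h | h | h | h
        · exact ⟨sq p0, two_le_vc (p := p0) (q := p1) (by simp) (by simp) hne.1 rfl h.symm⟩
        · exact ⟨sq p1, two_le_vc (p := p1) (q := p2) (by simp) (by simp) hne.2.1 rfl h.symm⟩
        · exact ⟨sq p2, two_le_vc (p := p2) (q := p3) (by simp) (by simp) hne.2.2.1 rfl h.symm⟩
        · exact ⟨sq p3, two_le_vc (p := p3) (q := p4) (by simp) (by simp) hne.2.2.2 rfl h.symm⟩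
    rw [h4, Finset.card_range] at h3
    have h5 : n ≤ 5 * q + 3 := by omega
    have h6 : (n : ℝ) ≤ 5 * q + 3 := by exact_mod_cast h5
    have h7 : (q : ℝ) ≤ 6 * ((FT (Tk 2) l).card : ℝ) := by exact_mod_cast h3
    have h8 : (10 : ℝ) ≤ n := by exact_mod_cast hn
    linarith
  rw [hempty, Finset.card_empty]
  have := mu_pos
  push_cast
  positivity

theorem AT_Tk (k : ℕ) (hk : 2 ≤ k) : AT (Tk k) := by
  induction k, hk using Nat.le_induction with
  | base => exact AT_two
  | succ k hk ih => exact AT_step ih (Blk1 hk) (Hit1 _) (Grow1 _ _)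

theorem AT_Tinf : AT Tinf := by
  classical
  apply AT_mono _ (AT_Tk 12 (by norm_num))
  intro x l hl h
  rcases h with h | h
  · -- twelve visits: all the sites
    have h1 : (l.toFinset.filter (fun p => sq p = x)).image loc = Finset.range 12 := by
      apply Finset.eq_of_subset_of_card_le
      · intro c hc
        rw [Finset.mem_image] at hc
        obtain ⟨p, -, rfl⟩ := hc
        exact Finset.mem_range.2 (loc_lt p)
      · rw [Finset.card_range, Finset.card_image_of_injOn]
        · refine h.trans ?_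
          unfold vc
          rw [List.countP_eq_length_filter, ← List.toFinset_card_of_nodup (hl.filter _)]
          apply Finset.card_le_card
          intro p hp
          rw [List.mem_toFinset, List.mem_filter] at hp
          rw [Finset.mem_filter, List.mem_toFinset]
          exact ⟨hp.1, by simpa using hp.2⟩
        · intro p hp q hq he
          rw [Finset.mem_coe, Finset.mem_filter] at hp hq
          rw [← glob_loc p, ← glob_loc q, hp.2, hq.2, he]
    intro c _ hc
    have h2 : c ∈ (l.toFinset.filter (fun p => sq p = x)).image loc := by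
      rw [h1, Finset.mem_range]; omega
    rw [Finset.mem_image] at h2
    obtain ⟨p, hp, rfl⟩ := h2
    rw [Finset.mem_filter, List.mem_toFinset] at hp
    rw [glob_loc' hp.2]
    exact hp.1
  · exact h

lemma Blk2 : Blk Reg2 Tinf Tend := by
  intro x A b B hn h
  refine ⟨Tinf_vc' h, Or.inr ⟨?_, ?_, ?_⟩⟩
  · have := Tinf_vc h
    change 2 ≤ vc (inR x) (A ++ b ++ B)
    rw [vc_append, vc_append]; omega
  · intro p hp hr
    have h1 : p ∈ b := by
      have := h (loc p) hr.2.1 hr.2.2
      rwa [glob_loc' hr.1] at this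
    exact (List.nodup_append.1 (List.nodup_append.1 hn).1).2.2 p hp p h1 rfl
  · intro p hp hr
    have h1 : p ∈ b := by
      have := h (loc p) hr.2.1 hr.2.2
      rwa [glob_loc' hr.1] at this
    exact (List.nodup_append.1 hn).2.2 p (List.mem_append_right _ h1) p hp rfl

lemma Hit2 : Hit Reg2 Tend := by
  intro x A B a b ha hb hab hA hB
  obtain ⟨A', c, d, B', e, f, h⟩ := tab2_spec ha.2 hb.2 (loc_ne ha.1 hb.1 hab)
  change Tend x (A ++ (p2 (loc a) (loc b)).map (glob x) ++ B)
  have hin : ∀ e, 3 ≤ e ∧ e < 9 → inR x (glob x e) := by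
    intro e he
    exact ⟨sq_glob x e (by omega), by rw [loc_glob x e (by omega)]; exact he⟩
  have hcl : c ∈ p2 (loc a) (loc b) := by rw [h.eq]; simp
  have hdl : d ∈ p2 (loc a) (loc b) := by rw [h.eq]; simp
  have hnm : ∀ e, 3 ≤ e ∧ e < 9 → e ∉ p2 (loc a) (loc b) →
      glob x e ∉ A ++ (p2 (loc a) (loc b)).map (glob x) ++ B := by
    intro e he hne hm
    rw [List.mem_append, List.mem_append] at hm
    rcases hm with (hm | hm) | hm
    · exact hA _ hm (hin e he)
    · rw [List.mem_map] at hm
      obtain ⟨c', hc', he'⟩ := hm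
      have := h.lt c' hc'
      have := glob_inj (by omega) (by omega) he'
      subst this
      exact hne hc'
    · exact hB _ hm (hin e he)
  refine ⟨A ++ A'.map (glob x), glob x c, glob x d, B'.map (glob x) ++ B, glob x e, glob x f,
    ?_, ?_, ?_, ?_, ?_, hnm e h.he h.ne, hnm f h.hf h.nf, adj_glob x h.ce, adj_glob x h.ef,
    adj_glob x h.fd⟩
  · rw [h.eq]
    simp
  · exact sq_glob x c (by have := h.lt c hcl; omega)
  · exact sq_glob x d (by have := h.lt d hdl; omega)
  · exact sq_glob x e (by have := h.he; omega)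
  · exact sq_glob x f (by have := h.hf; omega)

lemma Grow2 (D : Reg) : Grow D Tend := by
  intro x y A s B π hyx hs hπ hπ0 h
  obtain ⟨A', c, d, B', e, f, heq, hc, hd, he, hf, hel, hfl, h1, h2, h3⟩ := h
  have hπy : ∀ q ∈ π, sq q ≠ y := fun q hq h0 => hyx (h0.symm.trans (D.sq_of x q (hπ q hq)))
  have key : (∃ t, A = A' ++ [c, d] ++ t) ∨ (∃ t, B = t ++ [c, d] ++ B') := by
    rw [List.append_assoc, List.append_assoc, List.append_eq_append_iff] at heq
    rcases heq with ⟨t, ht1, ht2⟩ | ⟨t, ht1, ht2⟩
    · -- A' = A ++ t, π ++ B = t ++ ([c, d] ++ B')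
      right
      rw [List.append_eq_append_iff] at ht2
      rcases ht2 with ⟨t', k1, k2⟩ | ⟨t', k1, k2⟩
      · exact ⟨t', by rw [k2, List.append_assoc]⟩
      · -- π = t ++ t', [c,d] ++ B' = t' ++ B
        cases t' with
        | nil => exact ⟨[], by simpa using k2.symm⟩
        | cons a t' =>
          exfalso
          simp only [List.cons_append, List.nil_append, List.cons.injEq] at k2
          apply hπy a (by rw [k1]; simp)
          rw [← k2.1]; exact hc
    · -- A = A' ++ t, [c, d] ++ B' = t ++ (π ++ B)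
      left
      match t with
      | [] =>
        exfalso
        obtain ⟨a, π', rfl⟩ : ∃ a π', π = a :: π' := by
          cases π with
          | nil => exact absurd rfl hπ0
          | cons a π' => exact ⟨a, π', rfl⟩
        simp only [List.cons_append, List.nil_append, List.cons.injEq] at ht2
        apply hπy a (by simp)
        rw [← ht2.1]; exact hc
      | [t0] =>
        exfalso
        obtain ⟨a, π', rfl⟩ : ∃ a π', π = a :: π' := by
          cases π with
          | nil => exact absurd rfl hπ0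
          | cons a π' => exact ⟨a, π', rfl⟩
        simp only [List.cons_append, List.nil_append, List.cons.injEq] at ht2
        apply hπy a (by simp)
        rw [← ht2.2.1]; exact hd
      | t0 :: t1 :: t2 =>
        simp only [List.cons_append, List.nil_append, List.cons.injEq] at ht2
        refine ⟨t2, ?_⟩
        rw [ht1, ht2.1, ht2.2.1]
        simp
  have hout : ∀ z, sq z = y → z ∉ A ++ π ++ B → z ∉ A ++ s ++ B := by
    intro z hz hn hm
    rw [List.mem_append, List.mem_append] at hn hm
    rcases hm with (hm | hm) | hm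
    · exact hn (Or.inl (Or.inl hm))
    · exact hs z hm hz
    · exact hn (Or.inr hm)
  rcases key with ⟨t, ht⟩ | ⟨t, ht⟩
  · refine ⟨A', c, d, t ++ s ++ B, e, f, ?_, hc, hd, he, hf, hout e he hel, hout f hf hfl,
      h1, h2, h3⟩
    rw [ht]
    simp
  · refine ⟨A ++ s ++ t, c, d, B', e, f, ?_, hc, hd, he, hf, hout e he hel, hout f hf hfl,
      h1, h2, h3⟩
    rw [ht]
    simp

/-- **Typical walks have many places where a bump can be inserted.** -/
theorem AT_Tend : AT Tend := AT_step AT_Tinf Blk2 Hit2 (Grow2 _)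

end Pool.Agent.SawKes
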