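import Pool.Agent.SawLim.Bridge

/-!
Self-avoiding walks on `ℤ²` as lists of sites; counting; growth constant.
-/

set_option autoImplicit false

open SawNu

namespace Pool.Agent.SawKes

abbrev Site := ℤ × ℤ

/-- nearest neighbours -/
def Adj (p q : Site) : Prop := |(q - p).1| + |(q - p).2| = 1

/-- list of sites visited by the step word `w` started at `u` -/
def sitesOf : Site → List Pt → List Site
  | u, [] => [u]
  | u, s :: w => u :: sitesOf (u + s) w

@[simp] lemma length_sitesOf (u : Site) (w : List Pt) : (sitesOf u w).length = w.length + 1 := by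
  induction w generalizing u with
  | nil => rfl
  | cons s w ih => simp [sitesOf, ih]

lemma head_sitesOf (u : Site) (w : List Pt) : (sitesOf u w).head? = some u := by
  cases w <;> rfl

lemma getElem_sitesOf (u : Site) (w : List Pt) (i : ℕ) (h : i < (sitesOf u w).length) :
    (sitesOf u w)[i] = u + ps w i := by
  induction w generalizing u i with
  | nil =>
    simp only [length_sitesOf, List.length_nil] at h
    have : i = 0 := by omega
    subst this
    simp [sitesOf]
  | cons s w ih =>
    cases i with
    | zero => simp [sitesOf]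
    | succ i =>
      simp only [sitesOf, List.getElem_cons_succ]
      rw [ih]
      simp only [ps, List.take_succ_cons, List.sum_cons]
      rw [add_assoc]

lemma chain_sitesOf (u : Site) (w : List Pt) (h : ∀ s ∈ w, |s.1| + |s.2| = 1) :
    (sitesOf u w).IsChain Adj := by
  induction w generalizing u with
  | nil => exact List.isChain_singleton _
  | cons s w ih =>
    rw [sitesOf, List.isChain_cons]
    refine ⟨?_, ih (u + s) (fun t ht => h t (List.mem_cons_of_mem _ ht))⟩
    intro y hy
    rw [head_sitesOf] at hy
    simp only [Option.mem_def, Option.some.injEq] at hy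
    subst hy
    have := h s List.mem_cons_self
    unfold Adj
    rw [add_sub_cancel_left]
    exact this

lemma nodup_sitesOf (u : Site) (w : List Pt) : (sitesOf u w).Nodup ↔ SA w := by
  rw [List.Nodup, List.pairwise_iff_getElem]
  constructor
  · intro h i j hij hj he
    have := h i j (by simp; omega) (by simp; omega) hij
    rw [getElem_sitesOf, getElem_sitesOf] at this
    exact this (by rw [he])
  · intro h i j hi hj hij
    rw [getElem_sitesOf, getElem_sitesOf]
    intro he
    rw [length_sitesOf] at hj
    exact h i j hij (by omega) (add_left_cancel he)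

lemma sitesOf_inj (u : Site) {w w' : List Pt} (h : sitesOf u w = sitesOf u w') : w = w' := by
  induction w generalizing u w' with
  | nil =>
    cases w' with
    | nil => rfl
    | cons s w' =>
      have := congrArg List.length h
      simp [sitesOf] at this
  | cons s w ih =>
    cases w' with
    | nil =>
      have := congrArg List.length h
      simp [sitesOf] at this
    | cons s' w' =>
      simp only [sitesOf, List.cons.injEq, true_and] at h
      have h1 : u + s = u + s' := by
        have := congrArg List.head? h
        rw [head_sitesOf, head_sitesOf] at this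
        exact Option.some.inj this
      have h2 : s = s' := add_left_cancel h1
      subst h2
      rw [ih _ h]

open scoped Classical in
/-- the set of `n`-step self-avoiding walks started at `u`, as lists of sites -/
noncomputable def walks (n : ℕ) (u : Site) : Finset (List Site) :=
  (WS sqL n).image (sitesOf u)

theorem mem_walks {n : ℕ} {u : Site} {l : List Site} :
    l ∈ walks n u ↔ l.length = n + 1 ∧ l.head? = some u ∧ l.IsChain Adj ∧ l.Nodup := by
  rw [walks, Finset.mem_image]
  constructor
  · rintro ⟨w, hw, rfl⟩
    obtain ⟨h1, h2, h3⟩ := mem_WS.1 hw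
    rw [Pool.Agent.SawLim.TW_sq] at h2
    exact ⟨by simp [h1], head_sitesOf u w, chain_sitesOf u w h2, (nodup_sitesOf u w).2 h3⟩
  · rintro ⟨h1, h2, h3, h4⟩
    have key : ∀ (n : ℕ) (u : Site) (l : List Site), l.length = n + 1 → l.head? = some u →
        l.IsChain Adj → ∃ w : List Pt, w.length = n ∧ (∀ s ∈ w, |s.1| + |s.2| = 1) ∧
        sitesOf u w = l := by
      intro n
      induction n with
      | zero =>
        intro u l hl hh _
        match l, hl, hh with
        | [a], _, hh =>
          simp only [List.head?_cons, Option.some.injEq] at hh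
          subst hh
          exact ⟨[], rfl, by simp, rfl⟩
      | succ n ih =>
        intro u l hl hh hc
        match l, hl, hh, hc with
        | a :: b :: l', hl, hh, hc =>
          simp only [List.head?_cons, Option.some.injEq] at hh
          subst hh
          rw [List.isChain_cons_cons] at hc
          obtain ⟨w, hw1, hw2, hw3⟩ := ih b (b :: l') (by simpa using hl) rfl hc.2
          refine ⟨(b - a) :: w, by simp [hw1], ?_, ?_⟩
          · intro s hs
            rcases List.mem_cons.1 hs with rfl | hs
            · exact hc.1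
            · exact hw2 s hs
          · simp only [sitesOf]
            rw [add_sub_cancel, hw3]
    obtain ⟨w, hw1, hw2, hw3⟩ := key n u l h1 h2 h3
    refine ⟨w, ?_, hw3⟩
    rw [mem_WS, Pool.Agent.SawLim.TW_sq]
    refine ⟨hw1, hw2, ?_⟩
    rw [← nodup_sitesOf u w, hw3]
    exact h4

/-- number of `n`-step self-avoiding walks -/
noncomputable def cc (n : ℕ) : ℕ := (WS sqL n).card

lemma card_walks (n : ℕ) (u : Site) : (walks n u).card = cc n := by
  classical
  rw [walks, Finset.card_image_of_injective]
  · rfl
  · intro w w' h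
    exact sitesOf_inj u h

lemma cc_pos (n : ℕ) : 0 < cc n := by
  have h := Pool.Agent.SawLim.steps_mem (Pool.Agent.SawLim.straight_isSAW n)
  exact Finset.card_pos.2 ⟨_, h⟩

lemma cc_zero : cc 0 = 1 := by
  rw [cc, Finset.card_eq_one]
  refine ⟨[], ?_⟩
  ext l
  rw [mem_WS, Finset.mem_singleton]
  constructor
  · rintro ⟨h, -, -⟩
    exact List.length_eq_zero_iff.1 h
  · rintro rfl
    exact ⟨rfl, trivial, SA.nil⟩

/-- submultiplicativity -/
theorem cc_mul (m n : ℕ) : cc (m + n) ≤ cc m * cc n := by
  classical
  unfold cc
  rw [← Finset.card_product]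
  apply Finset.card_le_card_of_injOn (fun l => (l.take m, l.drop m))
  · intro l hl
    have hl' := Finset.mem_coe.1 hl
    obtain ⟨h1, h2, h3⟩ := mem_WS.1 hl'
    rw [Pool.Agent.SawLim.TW_sq] at h2
    rw [Finset.mem_coe, Finset.mem_product, mem_WS, mem_WS, Pool.Agent.SawLim.TW_sq,
      Pool.Agent.SawLim.TW_sq]
    have h3' : SA (l.take m ++ l.drop m) := by rw [List.take_append_drop]; exact h3
    refine ⟨⟨by simp only [List.length_take]; omega, ?_, h3'.left⟩,
      ⟨by simp only [List.length_drop]; omega, ?_, h3'.right⟩⟩
    · intro s hs; exact h2 s (List.mem_of_mem_take hs)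
    · intro s hs; exact h2 s (List.mem_of_mem_drop hs)
  · intro l hl l' hl' he
    simp only [Prod.mk.injEq] at he
    rw [← List.take_append_drop m l, ← List.take_append_drop m l', he.1, he.2]

lemma sub_log : Subadditive (fun n => Real.log (cc n)) := by
  intro m n
  have h1 : (0 : ℝ) < cc m := by exact_mod_cast cc_pos m
  have h2 : (0 : ℝ) < cc n := by exact_mod_cast cc_pos n
  have h3 : (0 : ℝ) < cc (m + n) := by exact_mod_cast cc_pos (m + n)
  rw [← Real.log_mul h1.ne' h2.ne']
  apply Real.log_le_log h3
  exact_mod_cast cc_mul m n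

lemma log_cc_nonneg (n : ℕ) : 0 ≤ Real.log (cc n) := by
  apply Real.log_nonneg
  exact_mod_cast cc_pos n

lemma bdd_log : BddBelow (Set.range fun n : ℕ => Real.log (cc n) / n) := by
  refine ⟨0, ?_⟩
  rintro x ⟨n, rfl⟩
  exact div_nonneg (log_cc_nonneg n) (Nat.cast_nonneg n)

/-- logarithm of the connective constant -/
noncomputable def kap : ℝ := sub_log.lim

/-- the connective constant -/
noncomputable def mu : ℝ := Real.exp kap

lemma mu_pos : 0 < mu := Real.exp_pos _

lemma kap_nonneg : 0 ≤ kap :=
  ge_of_tendsto' (sub_log.tendsto_lim bdd_log) (fun n => div_nonneg (log_cc_nonneg n) (Nat.cast_nonneg n))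

lemma one_le_mu : 1 ≤ mu := Real.one_le_exp kap_nonneg

theorem mu_pow_le (n : ℕ) : mu ^ n ≤ cc n := by
  rcases Nat.eq_zero_or_pos n with h | h
  · subst h; simp [cc_zero]
  · have h1 := sub_log.lim_le_div bdd_log (by omega : n ≠ 0)
    have hn : (0 : ℝ) < n := by exact_mod_cast h
    rw [le_div_iff₀ hn] at h1
    have h2 : (0 : ℝ) < cc n := by exact_mod_cast cc_pos n
    calc mu ^ n = Real.exp (kap * n) := by
          rw [mu, ← Real.exp_nat_mul, mul_comm]
      _ ≤ Real.exp (Real.log (cc n)) := Real.exp_le_exp.2 h1
      _ = cc n := Real.exp_log h2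

/-- for every `η > 0`, `c_n ≤ C (e^η μ)^n` -/
theorem cc_le (η : ℝ) (hη : 0 < η) : ∃ C : ℝ, 1 ≤ C ∧ ∀ n : ℕ,
    (cc n : ℝ) ≤ C * (Real.exp η * mu) ^ n := by
  have h1 := sub_log.tendsto_lim bdd_log
  have h2 : ∀ᶠ n : ℕ in Filter.atTop, Real.log (cc n) / n < kap + η :=
    (tendsto_order.1 h1).2 _ (by show kap < kap + η; linarith)
  obtain ⟨N, hN⟩ := Filter.eventually_atTop.1 h2
  have hbase : 1 ≤ Real.exp η * mu := by
    have a := Real.one_le_exp hη.le
    have b := one_le_mu
    nlinarith
  have hpos : ∀ n : ℕ, (1 : ℝ) ≤ (Real.exp η * mu) ^ n := fun n => one_le_pow₀ hbase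
  refine ⟨1 + ∑ n ∈ Finset.range (N + 1), (cc n : ℝ), ?_, ?_⟩
  · have : 0 ≤ ∑ n ∈ Finset.range (N + 1), (cc n : ℝ) := Finset.sum_nonneg (fun _ _ => Nat.cast_nonneg _)
    linarith
  · intro n
    have hs : 0 ≤ ∑ n ∈ Finset.range (N + 1), (cc n : ℝ) := Finset.sum_nonneg (fun _ _ => Nat.cast_nonneg _)
    by_cases hn : n ≤ N
    · have h3 : (cc n : ℝ) ≤ ∑ n ∈ Finset.range (N + 1), (cc n : ℝ) :=
        Finset.single_le_sum (f := fun n => (cc n : ℝ)) (fun _ _ => Nat.cast_nonneg _)
          (Finset.mem_range.2 (by omega))
      have := hpos n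
      nlinarith
    · have hn0 : (0 : ℝ) < n := by
        have : 0 < n := by omega
        exact_mod_cast this
      have h3 := hN n (by omega)
      rw [div_lt_iff₀ hn0] at h3
      have h4 : (0 : ℝ) < cc n := by exact_mod_cast cc_pos n
      have h5 : (cc n : ℝ) ≤ (Real.exp η * mu) ^ n := by
        calc (cc n : ℝ) = Real.exp (Real.log (cc n)) := (Real.exp_log h4).symm
          _ ≤ Real.exp ((kap + η) * n) := Real.exp_le_exp.2 h3.le
          _ = (Real.exp η * mu) ^ n := by
              rw [mu, ← Real.exp_add, ← Real.exp_nat_mul]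
              congr 1; ring
      have := hpos n
      nlinarith

end Pool.Agent.SawKes
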