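import Pool.Agent.SawKes.Rare

/-!
Cutting a walk into blocks: typical walks have many good blocks, hence many available squares.
-/

set_option autoImplicit false

open SawNu

namespace Pool.Agent.SawKes

variable {D : Reg}

/-- block number `i` of length `M` -/
def blk (M i : ℕ) (l : List Site) : List Site := (l.drop (i * M)).take M

lemma blk_zero (M : ℕ) (l : List Site) : blk M 0 l = l.take M := by simp [blk]

lemma blk_succ (M i : ℕ) (l : List Site) : blk M (i + 1) l = blk M i (l.drop M) := by
  unfold blk
  rw [List.drop_drop]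
  congr 2
  ring

lemma blk_decomp (M i : ℕ) (l : List Site) :
    l = l.take (i * M) ++ blk M i l ++ (l.drop (i * M)).drop M := by
  unfold blk
  rw [List.append_assoc, List.take_append_drop, List.take_append_drop]

lemma sum_vc_blk (r : Site → Prop) (M q : ℕ) (l : List Site) :
    ∑ i ∈ Finset.range q, vc r (blk M i l) ≤ vc r l := by
  induction q generalizing l with
  | zero => simp
  | succ q ih =>
    rw [Finset.sum_range_succ']
    simp only [blk_succ, blk_zero]
    have h1 := ih (l.drop M)
    have h2 : vc r (l.take M) + vc r (l.drop M) = vc r l := by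
      rw [← vc_append, List.take_append_drop]
    omega

lemma vc_sq_le {l : List Site} (hl : l.Nodup) (x : Site) : vc (fun p => sq p = x) l ≤ 12 := by
  classical
  have h1 : vc (fun p => sq p = x) l = (l.toFinset.filter (fun p => sq p = x)).card := by
    unfold vc
    rw [List.countP_eq_length_filter]
    have : (l.toFinset.filter (fun p => sq p = x)) =
        (l.filter (fun p => decide (sq p = x))).toFinset := by
      ext p; simp
    rw [this, List.toFinset_card_of_nodup (hl.filter _)]
    congr 1
    apply List.filter_congr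
    intro p _
    simp
  rw [h1]
  calc (l.toFinset.filter (fun p => sq p = x)).card ≤ (Finset.range 12).card := by
        apply Finset.card_le_card_of_injOn loc
        · intro p _
          rw [Finset.mem_coe, Finset.mem_range]
          exact loc_lt p
        · intro p hp p' hp' he
          rw [Finset.mem_coe, Finset.mem_filter] at hp hp'
          rw [← glob_loc p, ← glob_loc p', hp.2, hp'.2, he]
    _ = 12 := Finset.card_range 12

open scoped Classical in
/-- indices of good blocks -/
noncomputable def GI (Gd : Site → List Site → Prop) (M q : ℕ) (l : List Site) : Finset ℕ :=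
  (Finset.range q).filter (fun i => ∃ x, Gd x (blk M i l))

/-- the property of a good block -/
def Blk (D : Reg) (Gd T : Site → List Site → Prop) : Prop :=
  ∀ (x : Site) (A b B : List Site), (A ++ b ++ B).Nodup → Gd x b →
    2 ≤ vc (fun p => sq p = x) b ∧
    (T x (A ++ b ++ B) ∨
      (2 ≤ vc (D.r x) (A ++ b ++ B) ∧ Avoid (D.r x) A ∧ Avoid (D.r x) B))

theorem good_le {Gd T : Site → List Site → Prop} (hB : Blk D Gd T) (m q : ℕ) {l : List Site}
    (hl : l.Nodup) : (GI Gd (m + 1) q l).card ≤ 6 * ((D.U m l).card + (FT T l).card) := by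
  classical
  have hx : ∀ i ∈ GI Gd (m + 1) q l, ∃ x, Gd x (blk (m + 1) i l) := by
    intro i hi
    unfold GI at hi
    rw [Finset.mem_filter] at hi
    exact hi.2
  choose! X hX using hx
  have hmaps : ∀ i ∈ GI Gd (m + 1) q l, X i ∈ (D.U m l) ∪ (FT T l) := by
    intro i hi
    have hd := blk_decomp (m + 1) i l
    have hl' := hl
    rw [hd] at hl'
    obtain ⟨h1, h2⟩ := hB (X i) _ _ _ hl' (hX i hi)
    rcases h2 with h2 | ⟨h2, h3, h4⟩
    · apply Finset.mem_union_right
      rw [← hd] at h2
      unfold FT
      rw [Finset.mem_filter]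
      refine ⟨?_, h2⟩
      obtain ⟨p, hp, hr⟩ := mem_of_vc_pos (r := fun p => sq p = X i)
        (l := blk (m + 1) i l) (by omega)
      rw [List.mem_toFinset, List.mem_map]
      refine ⟨p, ?_, hr⟩
      rw [hd]
      exact List.mem_append_left _ (List.mem_append_right _ hp)
    · apply Finset.mem_union_left
      rw [Reg.mem_U]
      rw [← hd] at h2
      refine ⟨h2, _, _, _, hd, ?_, h3, h4⟩
      unfold blk
      rw [List.length_take]
      omega
  have hfib : ∀ x ∈ (D.U m l) ∪ (FT T l),
      ((GI Gd (m + 1) q l).filter (fun i => X i = x)).card ≤ 6 := by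
    intro x _
    have h1 := sum_vc_blk (fun p => sq p = x) (m + 1) q l
    have h2 := vc_sq_le hl x
    have h3 : ∑ i ∈ (GI Gd (m + 1) q l).filter (fun i => X i = x), 2 ≤
        ∑ i ∈ Finset.range q, vc (fun p => sq p = x) (blk (m + 1) i l) := by
      calc ∑ i ∈ (GI Gd (m + 1) q l).filter (fun i => X i = x), 2
          ≤ ∑ i ∈ (GI Gd (m + 1) q l).filter (fun i => X i = x),
              vc (fun p => sq p = x) (blk (m + 1) i l) := by
            apply Finset.sum_le_sum
            intro i hi
            rw [Finset.mem_filter] at hi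
            have hd := blk_decomp (m + 1) i l
            have hl' := hl
            rw [hd] at hl'
            obtain ⟨h1, h2⟩ := hB (X i) _ _ _ hl' (hX i hi.1)
            rw [hi.2] at h1
            exact h1
        _ ≤ ∑ i ∈ Finset.range q, vc (fun p => sq p = x) (blk (m + 1) i l) := by
            apply Finset.sum_le_sum_of_subset
            intro i hi
            rw [Finset.mem_filter] at hi
            have := hi.1
            unfold GI at this
            exact (Finset.mem_filter.1 this).1
    rw [Finset.sum_const, smul_eq_mul] at h3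
    omega
  have h := Finset.card_le_mul_card_image_of_maps_to hmaps 6 hfib
  have h2 := Finset.card_union_le (D.U m l) (FT T l)
  calc (GI Gd (m + 1) q l).card ≤ 6 * ((D.U m l) ∪ (FT T l)).card := h
    _ ≤ 6 * ((D.U m l).card + (FT T l).card) := Nat.mul_le_mul_left _ h2

open scoped Classical in
/-- number of bad blocks -/
noncomputable def nB (Gd : Site → List Site → Prop) (M : ℕ) : ℕ → List Site → ℕ
  | 0, _ => 0
  | q + 1, l => (if ∃ x, Gd x (l.take M) then 0 else 1) + nB Gd M q (l.drop M)

lemma GI_add_nB (Gd : Site → List Site → Prop) (M q : ℕ) (l : List Site) :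
    (GI Gd M q l).card + nB Gd M q l = q := by
  classical
  induction q generalizing l with
  | zero => simp [GI, nB]
  | succ q ih =>
    have h1 := ih (l.drop M)
    have h2 : (GI Gd M (q + 1) l).card = (GI Gd M q (l.drop M)).card +
        (if ∃ x, Gd x (l.take M) then 1 else 0) := by
      unfold GI
      rw [Finset.card_filter, Finset.card_filter, Finset.sum_range_succ']
      simp only [blk_succ, blk_zero]
    rw [h2, nB]
    split_ifs <;> omega

/-- the four directions -/
def dirs : Finset Site := {(1, 0), (0, 1), (-1, 0), (0, -1)}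

lemma adj_dirs {p q : Site} (h : Adj p q) : q - p ∈ dirs := by
  have := (Pool.Agent.SawLim.mem_sqS true (q - p)).2 h
  exact this

lemma sum_biUnion_le' {α β : Type*} [DecidableEq β] (s : Finset α) (t : α → Finset β)
    (f : β → ℝ) (hf : ∀ x, 0 ≤ f x) :
    ∑ x ∈ s.biUnion t, f x ≤ ∑ i ∈ s, ∑ x ∈ t i, f x := by
  classical
  induction s using Finset.induction_on with
  | empty => simp
  | insert a s ha ih =>
    rw [Finset.biUnion_insert, Finset.sum_insert ha]
    have h1 := Finset.sum_union_inter (s₁ := t a) (s₂ := s.biUnion t) (f := f)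
    have h2 : 0 ≤ ∑ x ∈ t a ∩ s.biUnion t, f x := Finset.sum_nonneg (fun _ _ => hf _)
    linarith

/-- Splitting off the first block. -/
lemma sum_split (m n : ℕ) (u : Site) (W1 W2 : List Site → ℝ) (h1 : ∀ l, 0 ≤ W1 l)
    (h2 : ∀ l, 0 ≤ W2 l) (Z : ℝ) (hZ : ∀ v, ∑ l ∈ walks n v, W2 l ≤ Z) :
    ∑ l ∈ walks (m + 1 + n) u, W1 (l.take (m + 1)) * W2 (l.drop (m + 1)) ≤
      (∑ l ∈ walks m u, W1 l) * (4 * Z) := by
  classical
  let tgt : Finset (Σ _ : List Site, List Site) :=
    (walks m u).sigma (fun l1 => dirs.biUnion (fun d => walks n (l1.getLast?.getD 0 + d)))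
  have hinj : Set.InjOn (fun l : List Site => (⟨l.take (m + 1), l.drop (m + 1)⟩ :
      Σ _ : List Site, List Site)) (walks (m + 1 + n) u : Set (List Site)) := by
    intro l _ l' _ he
    simp only [Sigma.mk.injEq, heq_eq_eq] at he
    rw [← List.take_append_drop (m + 1) l, ← List.take_append_drop (m + 1) l', he.1, he.2]
  have hmaps : ∀ l ∈ walks (m + 1 + n) u, (⟨l.take (m + 1), l.drop (m + 1)⟩ :
      Σ _ : List Site, List Site) ∈ tgt := by
    intro l hl
    rw [mem_walks] at hl
    obtain ⟨k1, k2, k3, k4⟩ := hl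
    have hsplit : l = l.take (m + 1) ++ l.drop (m + 1) := (List.take_append_drop _ _).symm
    rw [hsplit] at k3 k4
    rw [List.isChain_append] at k3
    rw [List.nodup_append] at k4
    obtain ⟨c1, c2, c3⟩ := k3
    obtain ⟨d1, d2, -⟩ := k4
    have hlen1 : (l.take (m + 1)).length = m + 1 := by rw [List.length_take]; omega
    have hlen2 : (l.drop (m + 1)).length = n + 1 := by rw [List.length_drop]; omega
    rw [Finset.mem_sigma]
    refine ⟨?_, ?_⟩
    · rw [mem_walks]
      refine ⟨hlen1, ?_, c1, d1⟩
      rw [List.head?_take]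
      simpa using k2
    · rw [Finset.mem_biUnion]
      obtain ⟨a, ha⟩ : ∃ a, (l.take (m + 1)).getLast? = some a := by
        have hne : l.take (m + 1) ≠ [] := by
          intro h0; rw [h0] at hlen1; simp at hlen1
        exact ⟨_, List.getLast?_eq_some_getLast hne⟩
      obtain ⟨b, hb⟩ : ∃ b, (l.drop (m + 1)).head? = some b := by
        cases hq : l.drop (m + 1) with
        | nil => rw [hq] at hlen2; simp at hlen2
        | cons b t => exact ⟨b, rfl⟩
      have hab := c3 a ha b hb
      refine ⟨b - a, adj_dirs hab, ?_⟩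
      simp only
      rw [ha, mem_walks]
      refine ⟨hlen2, ?_, c2, d2⟩
      rw [hb]
      simp
  have e1 : ∑ l ∈ walks (m + 1 + n) u, W1 (l.take (m + 1)) * W2 (l.drop (m + 1)) ≤
      ∑ p ∈ tgt, W1 p.1 * W2 p.2 := by
    rw [← Finset.sum_image (f := fun p : (Σ _ : List Site, List Site) => W1 p.1 * W2 p.2) hinj]
    apply Finset.sum_le_sum_of_subset_of_nonneg
    · intro p hp
      rw [Finset.mem_image] at hp
      obtain ⟨l, hl, rfl⟩ := hp
      exact hmaps l hl
    · intro p _ _
      exact mul_nonneg (h1 _) (h2 _)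
  refine e1.trans ?_
  have e2 : ∑ p ∈ tgt, W1 p.1 * W2 p.2 = ∑ l1 ∈ walks m u, ∑ l2 ∈ dirs.biUnion
      (fun d => walks n (l1.getLast?.getD 0 + d)), W1 l1 * W2 l2 := Finset.sum_sigma _ _ _
  rw [e2, Finset.sum_mul]
  apply Finset.sum_le_sum
  intro l1 _
  rw [← Finset.mul_sum]
  apply mul_le_mul_of_nonneg_left _ (h1 _)
  calc ∑ l2 ∈ dirs.biUnion (fun d => walks n (l1.getLast?.getD 0 + d)), W2 l2
      ≤ ∑ d ∈ dirs, ∑ l2 ∈ walks n (l1.getLast?.getD 0 + d), W2 l2 :=
        sum_biUnion_le' _ _ _ h2
    _ ≤ ∑ d ∈ dirs, Z := Finset.sum_le_sum (fun d _ => hZ _)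
    _ = 4 * Z := by
        rw [Finset.sum_const]
        simp [dirs]

end Pool.Agent.SawKes
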