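import Pool.Agent.SawKes.Blocks

/-!
The induction step: abundance of one property in typical walks gives abundance of the next one.
-/

set_option autoImplicit false

open SawNu

namespace Pool.Agent.SawKes

variable {D : Reg}

/-- walks with few squares with the property `T` are exponentially rare -/
def AT (T : Site → List Site → Prop) : Prop :=
  ∃ ε : ℝ, 0 < ε ∧ ∃ n₀ : ℕ, ∀ n : ℕ, n₀ ≤ n → ∀ u : Site, ∀ S : Finset (List Site),
    (∀ l ∈ S, l ∈ walks n u ∧ ((FT T l).card : ℝ) ≤ ε * n) →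
    (S.card : ℝ) ≤ Real.exp (-ε * n) * mu ^ n

lemma markov_sum (Gd : Site → List Site → Prop) (m r : ℕ) (L b : ℝ) (hL : 0 ≤ L)
    (hb : ∀ v, ∀ S : Finset (List Site), (∀ l ∈ S, l ∈ walks m v ∧ ¬ ∃ x, Gd x l) →
      (S.card : ℝ) ≤ b) (q : ℕ) (u : Site) :
    ∑ l ∈ walks (q * (m + 1) + r) u, L ^ (2 * nB Gd (m + 1) q l) ≤
      (4 * (cc m + L ^ 2 * b)) ^ q * cc r := by
  classical
  induction q generalizing u with
  | zero =>
    simp only [nB, mul_zero, pow_zero, Finset.sum_const, card_walks, nsmul_eq_mul, mul_one,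
      zero_mul, zero_add, one_mul]
    exact le_rfl
  | succ q ih =>
    have e : (q + 1) * (m + 1) + r = m + 1 + (q * (m + 1) + r) := by ring
    rw [e]
    have h1 := sum_split m (q * (m + 1) + r) u (fun l => if ∃ x, Gd x l then (1 : ℝ) else L ^ 2)
      (fun l => L ^ (2 * nB Gd (m + 1) q l))
      (fun l => by split_ifs <;> positivity) (fun l => by positivity)
      ((4 * (cc m + L ^ 2 * b)) ^ q * cc r) ih
    have h2 : ∑ l ∈ walks (m + 1 + (q * (m + 1) + r)) u, L ^ (2 * nB Gd (m + 1) (q + 1) l) =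
        ∑ l ∈ walks (m + 1 + (q * (m + 1) + r)) u,
          (if ∃ x, Gd x (l.take (m + 1)) then (1 : ℝ) else L ^ 2) *
            L ^ (2 * nB Gd (m + 1) q (l.drop (m + 1))) := by
      apply Finset.sum_congr rfl
      intro l _
      rw [nB]
      split_ifs
      · rw [one_mul, zero_add]
      · rw [← pow_add]; congr 1; ring
    rw [h2]
    refine h1.trans ?_
    have h3 : ∑ l ∈ walks m u, (if ∃ x, Gd x l then (1 : ℝ) else L ^ 2) ≤ cc m + L ^ 2 * b := by
      have e1 : ∀ l ∈ walks m u, (if ∃ x, Gd x l then (1 : ℝ) else L ^ 2) ≤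
          1 + L ^ 2 * (if ¬ ∃ x, Gd x l then (1 : ℝ) else 0) := by
        intro l _
        have : 0 ≤ L ^ 2 := by positivity
        by_cases hx : ∃ x, Gd x l
        · rw [if_pos hx, if_neg (by simpa using hx)]; linarith
        · rw [if_neg hx, if_pos hx]; linarith
      refine (Finset.sum_le_sum e1).trans ?_
      rw [Finset.sum_add_distrib, ← Finset.mul_sum, Finset.sum_const, card_walks, nsmul_eq_mul,
        mul_one]
      have e2 : ∑ l ∈ walks m u, (if ¬ ∃ x, Gd x l then (1 : ℝ) else 0) ≤ b := by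
        rw [← Finset.sum_filter, Finset.sum_const, nsmul_eq_mul, mul_one]
        apply hb u
        intro l hl
        rw [Finset.mem_filter] at hl
        exact hl
      have : 0 ≤ L ^ 2 := by positivity
      nlinarith
    have h4 : 0 ≤ 4 * ((4 * (cc m + L ^ 2 * b)) ^ q * (cc r : ℝ)) := by
      have hb0 : 0 ≤ b := by
        have := hb u ∅ (by simp)
        simpa using this
      positivity
    calc (∑ l ∈ walks m u, (if ∃ x, Gd x l then (1 : ℝ) else L ^ 2)) *
        (4 * ((4 * (cc m + L ^ 2 * b)) ^ q * (cc r : ℝ)))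
        ≤ (cc m + L ^ 2 * b) * (4 * ((4 * (cc m + L ^ 2 * b)) ^ q * (cc r : ℝ))) :=
          mul_le_mul_of_nonneg_right h3 h4
      _ = (4 * (cc m + L ^ 2 * b)) ^ (q + 1) * cc r := by ring

lemma exists_large (a c : ℝ) (hc : 0 < c) : ∃ N : ℕ, ∀ n : ℕ, N ≤ n → a ≤ Real.exp (c * n) := by
  obtain ⟨N, hN⟩ := exists_nat_ge (a / c)
  refine ⟨N, fun n hn => ?_⟩
  have h1 : a / c ≤ n := hN.trans (by exact_mod_cast hn)
  rw [div_le_iff₀ hc] at h1
  have := Real.add_one_le_exp (c * n)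
  linarith

/-- **induction step** -/
theorem AT_step {Gd T : Site → List Site → Prop} (hA : AT Gd) (hB : Blk D Gd T) (hT : Hit D T)
    (hG : Grow D T) : AT T := by
  classical
  obtain ⟨ε₁, hε₁, n₁, h₁⟩ := hA
  obtain ⟨C, hC1, hC⟩ := cc_le (ε₁ / 16) (by positivity)
  obtain ⟨m₀, hm₀⟩ := exists_large (8 * C) (ε₁ / 16) (by positivity)
  obtain ⟨m, hm⟩ : ∃ m : ℕ, m = max (max n₁ m₀) 1 := ⟨_, rfl⟩
  have hm1 : n₁ ≤ m := by rw [hm]; exact (le_max_left _ _).trans (le_max_left _ _)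
  have hm2 : m₀ ≤ m := by rw [hm]; exact (le_max_right _ _).trans (le_max_left _ _)
  have hm3 : 1 ≤ m := by rw [hm]; exact le_max_right _ _
  have h8C := hm₀ m hm2
  -- bad blocks
  obtain ⟨b, hbdef⟩ : ∃ b : ℝ, b = Real.exp (-ε₁ * m) * mu ^ m := ⟨_, rfl⟩
  have hb : ∀ v, ∀ S : Finset (List Site), (∀ l ∈ S, l ∈ walks m v ∧ ¬ ∃ x, Gd x l) →
      (S.card : ℝ) ≤ b := by
    intro v S hS
    rw [hbdef]
    apply h₁ m hm1 v S
    intro l hl
    refine ⟨(hS l hl).1, ?_⟩
    have : FT Gd l = ∅ := by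
      unfold FT
      rw [Finset.filter_eq_empty_iff]
      intro x _ hx
      exact (hS l hl).2 ⟨x, hx⟩
    rw [this, Finset.card_empty]
    push_cast
    positivity
  obtain ⟨L, hLdef⟩ : ∃ L : ℝ, L = Real.exp (ε₁ * m / 4) := ⟨_, rfl⟩
  have hLpos : 0 < L := by rw [hLdef]; exact Real.exp_pos _
  have hmupos := mu_pos
  have hbase : 4 * (cc m + L ^ 2 * b) ≤ L * (Real.exp (-(ε₁ * m / 8)) * mu ^ m) := by
    have e1 : L ^ 2 * b ≤ cc m := by
      rw [hLdef, hbdef, ← Real.exp_nat_mul]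
      have : Real.exp ((2 : ℕ) * (ε₁ * m / 4)) * (Real.exp (-ε₁ * m) * mu ^ m) =
          Real.exp (-(ε₁ * m / 2)) * mu ^ m := by
        rw [← mul_assoc, ← Real.exp_add]; congr 2; push_cast; ring
      rw [this]
      have h2 : Real.exp (-(ε₁ * m / 2)) ≤ 1 := Real.exp_le_one_iff.2 (by
        have : 0 ≤ ε₁ * m := by positivity
        linarith)
      have h3 := mu_pow_le m
      have h4 : 0 < mu ^ m := pow_pos hmupos m
      nlinarith
    have e2 : (cc m : ℝ) ≤ C * (Real.exp (ε₁ / 16) * mu) ^ m := hC m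
    have e3 : C * (Real.exp (ε₁ / 16) * mu) ^ m = C * Real.exp (ε₁ / 16 * m) * mu ^ m := by
      rw [mul_pow, ← Real.exp_nat_mul]; ring_nf
    have e4 : L * (Real.exp (-(ε₁ * m / 8)) * mu ^ m) =
        (Real.exp (ε₁ / 16 * m) * Real.exp (ε₁ / 16 * m)) * mu ^ m := by
      rw [hLdef, ← mul_assoc, ← Real.exp_add, ← Real.exp_add]; congr 2; ring
    rw [e4]
    have e5 : 8 * (C * Real.exp (ε₁ / 16 * m) * mu ^ m) ≤
        (Real.exp (ε₁ / 16 * m) * Real.exp (ε₁ / 16 * m)) * mu ^ m := by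
      have : 8 * (C * Real.exp (ε₁ / 16 * m) * mu ^ m) =
          ((8 * C) * Real.exp (ε₁ / 16 * m)) * mu ^ m := by ring
      rw [this]
      apply mul_le_mul_of_nonneg_right _ (pow_nonneg hmupos.le _)
      exact mul_le_mul_of_nonneg_right h8C (Real.exp_pos _).le
    linarith
  -- constant for the remainder
  obtain ⟨R, hRdef⟩ : ∃ R : ℝ, R = ∑ j ∈ Finset.range (m + 1), (cc j : ℝ) := ⟨_, rfl⟩
  have hR : ∀ r, r < m + 1 → (cc r : ℝ) ≤ R := by
    intro r hr
    rw [hRdef]
    exact Finset.single_le_sum (f := fun n => (cc n : ℝ)) (fun _ _ => Nat.cast_nonneg _)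
      (Finset.mem_range.2 hr)
  have hR0 : 0 < R := lt_of_lt_of_le (by exact_mod_cast cc_pos 0) (hR 0 (by omega))
  -- many available squares
  obtain ⟨κ, hκdef⟩ : ∃ κ : ℝ, κ = 1 / (48 * (m + 1)) := ⟨_, rfl⟩
  have hκ : 0 < κ := by rw [hκdef]; positivity
  obtain ⟨ε₂, hε₂, n₂, h₂⟩ := surg_rare hT hG m κ hκ
  obtain ⟨ε, hεdef⟩ : ∃ ε : ℝ, ε = min (min (ε₁ / 32) (ε₂ / 2)) κ := ⟨_, rfl⟩
  have hε : 0 < ε := by
    rw [hεdef]; exact lt_min (lt_min (by positivity) (by positivity)) hκ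
  have hε1 : ε ≤ ε₁ / 32 := by rw [hεdef]; exact (min_le_left _ _).trans (min_le_left _ _)
  have hε2 : ε ≤ ε₂ / 2 := by rw [hεdef]; exact (min_le_left _ _).trans (min_le_right _ _)
  have hε3 : ε ≤ κ := by rw [hεdef]; exact min_le_right _ _
  obtain ⟨n₃, h₃⟩ := exists_large (2 * (Real.exp (ε₁ * m / 16) * R)) (ε₁ / 32) (by positivity)
  obtain ⟨n₄, h₄⟩ := exists_large 2 (ε₂ / 2) (by positivity)
  refine ⟨ε, hε, max (max n₂ (2 * (m + 1))) (max n₃ n₄), fun n hn u S hS => ?_⟩
  have hn2 : n₂ ≤ n := ((le_max_left _ _).trans (le_max_left _ _)).trans hn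
  have hnm : 2 * (m + 1) ≤ n := ((le_max_right _ _).trans (le_max_left _ _)).trans hn
  have hn3 : n₃ ≤ n := ((le_max_left _ _).trans (le_max_right _ _)).trans hn
  have hn4 : n₄ ≤ n := ((le_max_right _ _).trans (le_max_right _ _)).trans hn
  have hn0 : (0 : ℝ) ≤ n := Nat.cast_nonneg n
  obtain ⟨q, hq⟩ : ∃ q : ℕ, q = n / (m + 1) := ⟨_, rfl⟩
  obtain ⟨r, hr⟩ : ∃ r : ℕ, r = n % (m + 1) := ⟨_, rfl⟩
  have hrlt : r < m + 1 := by rw [hr]; exact Nat.mod_lt _ (by omega)
  have hnqr : q * (m + 1) + r = n := by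
    rw [hq, hr]; exact Nat.div_add_mod' n (m + 1)
  -- split
  obtain ⟨S1, hS1⟩ : ∃ S1 : Finset (List Site), S1 = S.filter (fun l => q ≤ 2 * nB Gd (m + 1) q l) :=
    ⟨_, rfl⟩
  obtain ⟨S2, hS2⟩ : ∃ S2 : Finset (List Site),
    S2 = S.filter (fun l => ¬ q ≤ 2 * nB Gd (m + 1) q l) := ⟨_, rfl⟩
  have hScard : S.card = S1.card + S2.card := by
    rw [hS1, hS2]; exact (Finset.card_filter_add_card_filter_not _).symm
  -- S1
  have hb1 : (S1.card : ℝ) ≤ 1 / 2 * (Real.exp (-ε * n) * mu ^ n) := by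
    have hms := markov_sum Gd m r L b hLpos.le hb q u
    rw [hnqr] at hms
    have k1 : (S1.card : ℝ) * L ^ q ≤ ∑ l ∈ walks n u, L ^ (2 * nB Gd (m + 1) q l) := by
      have hL1 : 1 ≤ L := by rw [hLdef]; exact Real.one_le_exp (by positivity)
      calc (S1.card : ℝ) * L ^ q = ∑ l ∈ S1, L ^ q := by rw [Finset.sum_const, nsmul_eq_mul]
        _ ≤ ∑ l ∈ S1, L ^ (2 * nB Gd (m + 1) q l) := by
            apply Finset.sum_le_sum
            intro l hl
            rw [hS1, Finset.mem_filter] at hl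
            exact pow_le_pow_right₀ hL1 hl.2
        _ ≤ ∑ l ∈ walks n u, L ^ (2 * nB Gd (m + 1) q l) := by
            apply Finset.sum_le_sum_of_subset_of_nonneg
            · intro l hl
              rw [hS1, Finset.mem_filter] at hl
              exact (hS l hl.1).1
            · intro l _ _; positivity
    have hcc0 : 0 ≤ 4 * ((cc m : ℝ) + L ^ 2 * b) := by
      have : 0 ≤ b := by rw [hbdef]; positivity
      positivity
    have k2 : (4 * (cc m + L ^ 2 * b)) ^ q * (cc r : ℝ) ≤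
        (L * (Real.exp (-(ε₁ * m / 8)) * mu ^ m)) ^ q * R := by
      apply mul_le_mul (pow_le_pow_left₀ hcc0 hbase q) (hR r hrlt) (Nat.cast_nonneg _)
      positivity
    have k3 : (L * (Real.exp (-(ε₁ * m / 8)) * mu ^ m)) ^ q * R =
        ((Real.exp (-(ε₁ * m / 8)) * mu ^ m) ^ q * R) * L ^ q := by
      rw [mul_pow]; ring
    have k4 : (S1.card : ℝ) ≤ (Real.exp (-(ε₁ * m / 8)) * mu ^ m) ^ q * R := by
      have : (S1.card : ℝ) * L ^ q ≤
          ((Real.exp (-(ε₁ * m / 8)) * mu ^ m) ^ q * R) * L ^ q := by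
        rw [← k3]; exact k1.trans (hms.trans k2)
      exact le_of_mul_le_mul_right this (pow_pos hLpos q)
    have k5 : (Real.exp (-(ε₁ * m / 8)) * mu ^ m) ^ q ≤
        Real.exp (ε₁ * m / 16) * Real.exp (-(ε₁ / 16 * n)) * mu ^ n := by
      rw [mul_pow, ← Real.exp_nat_mul, ← pow_mul, ← Real.exp_add]
      apply mul_le_mul _ _ (by positivity) (Real.exp_pos _).le
      · apply Real.exp_le_exp.2
        -- q * m ≥ (n - m) / 2
        have hqm : (n : ℝ) - m ≤ 2 * (q * m) := by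
          have h1 : n ≤ q * (m + 1) + m := by omega
          have h2 : q ≤ q * m := Nat.le_mul_of_pos_right q (by omega)
          have h3 : n ≤ 2 * (q * m) + m := by
            have : q * (m + 1) = q * m + q := by ring
            omega
          have h4 : (n : ℝ) ≤ 2 * (q * m) + m := by exact_mod_cast h3
          linarith
        have h5 : 0 < ε₁ := hε₁
        nlinarith
      · apply pow_le_pow_right₀ one_le_mu
        have : m * q ≤ q * (m + 1) := by
          have : q * (m + 1) = m * q + q := by ring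
          omega
        omega
    have k6 : 2 * (Real.exp (ε₁ * m / 16) * R) ≤ Real.exp (ε₁ / 32 * n) := h₃ n hn3
    have hmun : 0 < mu ^ n := pow_pos hmupos n
    calc (S1.card : ℝ) ≤ (Real.exp (-(ε₁ * m / 8)) * mu ^ m) ^ q * R := k4
      _ ≤ (Real.exp (ε₁ * m / 16) * Real.exp (-(ε₁ / 16 * n)) * mu ^ n) * R :=
          mul_le_mul_of_nonneg_right k5 hR0.le
      _ = 1 / 2 * ((2 * (Real.exp (ε₁ * m / 16) * R)) * Real.exp (-(ε₁ / 16 * n))) * mu ^ n := by
          ring
      _ ≤ 1 / 2 * (Real.exp (ε₁ / 32 * n) * Real.exp (-(ε₁ / 16 * n))) * mu ^ n := by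
          apply mul_le_mul_of_nonneg_right _ hmun.le
          apply mul_le_mul_of_nonneg_left _ (by norm_num)
          exact mul_le_mul_of_nonneg_right k6 (Real.exp_pos _).le
      _ ≤ 1 / 2 * Real.exp (-ε * n) * mu ^ n := by
          apply mul_le_mul_of_nonneg_right _ hmun.le
          apply mul_le_mul_of_nonneg_left _ (by norm_num)
          rw [← Real.exp_add]
          apply Real.exp_le_exp.2
          nlinarith
      _ = 1 / 2 * (Real.exp (-ε * n) * mu ^ n) := by ring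
  -- S2
  have hb2 : (S2.card : ℝ) ≤ 1 / 2 * (Real.exp (-ε * n) * mu ^ n) := by
    have hmem : ∀ l ∈ S2, l ∈ walks n u ∧ ((FT T l).card : ℝ) ≤ ε₂ * n ∧
        κ * n ≤ ((D.U m l).card : ℝ) := by
      intro l hl
      rw [hS2, Finset.mem_filter] at hl
      obtain ⟨k1, k2⟩ := hS l hl.1
      refine ⟨k1, ?_, ?_⟩
      · have : ε * n ≤ ε₂ * n := mul_le_mul_of_nonneg_right (by linarith) hn0
        linarith
      · have hnd := (mem_walks.1 k1).2.2.2
        have g1 := good_le (D := D) hB m q hnd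
        have g2 := GI_add_nB Gd (m + 1) q l
        have g3 : q ≤ 2 * (6 * ((D.U m l).card + (FT T l).card)) := by omega
        have g4 : (q : ℝ) ≤ 12 * (((D.U m l).card : ℝ) + ((FT T l).card : ℝ)) := by
          have : (q : ℝ) ≤ 2 * (6 * (((D.U m l).card : ℝ) + ((FT T l).card : ℝ))) := by
            exact_mod_cast g3
          linarith
        -- q ≥ n / (2 (m+1))
        have g5 : (n : ℝ) ≤ 2 * (q * (m + 1)) := by
          have : n ≤ 2 * (q * (m + 1)) := by omega
          exact_mod_cast this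
        have g6 : ε * n ≤ κ * n := mul_le_mul_of_nonneg_right hε3 hn0
        have g7 : κ * (48 * (m + 1)) = 1 := by
          rw [hκdef]; field_simp
        have g8 : (n : ℝ) * κ * 24 ≤ q := by
          have hm1 : (0 : ℝ) < (m : ℝ) + 1 := by positivity
          have : (n : ℝ) * κ * 24 ≤ 2 * (q * (m + 1)) * κ * 24 := by
            apply mul_le_mul_of_nonneg_right _ (by norm_num)
            exact mul_le_mul_of_nonneg_right g5 hκ.le
          calc (n : ℝ) * κ * 24 ≤ 2 * (q * (m + 1)) * κ * 24 := this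
            _ = q * (κ * (48 * (m + 1))) := by ring
            _ = q := by rw [g7, mul_one]
        linarith
    have k1 := h₂ n hn2 u S2 hmem
    have k2 : (2 : ℝ) ≤ Real.exp (ε₂ / 2 * n) := h₄ n hn4
    have hmun : 0 < mu ^ n := pow_pos hmupos n
    calc (S2.card : ℝ) ≤ Real.exp (-ε₂ * n) * mu ^ n := k1
      _ = 1 / 2 * (2 * Real.exp (-ε₂ * n)) * mu ^ n := by ring
      _ ≤ 1 / 2 * (Real.exp (ε₂ / 2 * n) * Real.exp (-ε₂ * n)) * mu ^ n := by
          apply mul_le_mul_of_nonneg_right _ hmun.le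
          apply mul_le_mul_of_nonneg_left _ (by norm_num)
          exact mul_le_mul_of_nonneg_right k2 (Real.exp_pos _).le
      _ ≤ 1 / 2 * Real.exp (-ε * n) * mu ^ n := by
          apply mul_le_mul_of_nonneg_right _ hmun.le
          apply mul_le_mul_of_nonneg_left _ (by norm_num)
          rw [← Real.exp_add]
          apply Real.exp_le_exp.2
          nlinarith
      _ = 1 / 2 * (Real.exp (-ε * n) * mu ^ n) := by ring
  have : (S.card : ℝ) = S1.card + S2.card := by exact_mod_cast hScard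
  rw [this]
  linarith

lemma FT_mono {T T' : Site → List Site → Prop} {l : List Site} (h : ∀ x, T x l → T' x l) :
    (FT T l).card ≤ (FT T' l).card := by
  classical
  apply Finset.card_le_card
  intro x hx
  unfold FT at hx ⊢
  rw [Finset.mem_filter] at hx ⊢
  exact ⟨hx.1, h x hx.2⟩

lemma AT_mono {T T' : Site → List Site → Prop} (h : ∀ x l, l.Nodup → T x l → T' x l)
    (hA : AT T) : AT T' := by
  obtain ⟨ε, hε, n₀, h0⟩ := hA
  refine ⟨ε, hε, n₀, fun n hn u S hS => h0 n hn u S (fun l hl => ⟨(hS l hl).1, ?_⟩)⟩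
  have hnd := (mem_walks.1 (hS l hl).1).2.2.2
  have h1 : ((FT T l).card : ℝ) ≤ ((FT T' l).card : ℝ) := by
    exact_mod_cast FT_mono (fun x => h x l hnd)
  exact h1.trans (hS l hl).2

end Pool.Agent.SawKes
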