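import Pool.Agent.SawKes.Step

/-!
Walks with few target squares and many available squares are exponentially rare.
-/

set_option autoImplicit false

open SawNu

namespace Pool.Agent.SawKes

variable {D : Reg}

open scoped Classical in
/-- the class of walks after `i` surgeries -/
noncomputable def Cls (D : Reg) (T : Site → List Site → Prop) (m n : ℕ) (u : Site) (f0 a0 i : ℕ) :
    Finset (List Site) :=
  ((Finset.range (n + 12 * i + 1)).biUnion (fun j => walks j u)).filter
    (fun l => (FT T l).card ≤ f0 + (m + 2) * i ∧ a0 ≤ (D.U m l).card + (2 * m + 2) * i)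

lemma mem_Cls {T : Site → List Site → Prop} {m n : ℕ} {u : Site} {f0 a0 i : ℕ} {l : List Site} :
    l ∈ Cls D T m n u f0 a0 i ↔ IsWalk u l ∧ 1 ≤ l.length ∧ l.length ≤ n + 12 * i + 1 ∧
      (FT T l).card ≤ f0 + (m + 2) * i ∧ a0 ≤ (D.U m l).card + (2 * m + 2) * i := by
  classical
  unfold Cls
  rw [Finset.mem_filter, Finset.mem_biUnion]
  constructor
  · rintro ⟨⟨j, hj, hl⟩, h2, h3⟩
    rw [Finset.mem_range] at hj
    rw [mem_walks'] at hl
    exact ⟨hl.2, by omega, by omega, h2, h3⟩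
  · rintro ⟨h1, h2, h3, h4, h5⟩
    refine ⟨⟨l.length - 1, Finset.mem_range.2 (by omega), ?_⟩, h4, h5⟩
    rw [mem_walks']
    exact ⟨by omega, h1⟩

lemma Cls_step {T : Site → List Site → Prop} (hT : Hit D T) (hG : Grow D T) (m n : ℕ) (u : Site)
    (f0 a0 i : ℕ) :
    (Cls D T m n u f0 a0 i).card * (a0 - (2 * m + 2) * i) ≤
      (Cls D T m n u f0 a0 (i + 1)).card * ((f0 + (m + 2) * (i + 1)) * Cm m) := by
  apply one_step (D := D) hT u
  · intro l hl
    exact (mem_Cls.1 hl).1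
  · intro l hl
    have := (mem_Cls.1 hl).2.2.2.2
    omega
  · intro l hl x hx
    obtain ⟨h1, h2, h3, h4, h5⟩ := mem_Cls.1 hl
    have hx' := Reg.mem_U.1 hx
    obtain ⟨A, s, B, a', b', hd, hab, hm, hs⟩ := exists_dec hx'.1 h1.nodup hx'.2
    have k1 := Reg.mv_isWalk hd hab h1
    have k2 := Reg.mv_length hd hab
    have k3 := FT_card (m := m) hG hd hab hm
    have k4 := Reg.U_card hd hab hs hm
    rw [mem_Cls]
    refine ⟨k1, ?_, by omega, ?_, ?_⟩
    · have := k1.head
      cases hq : D.mv x l with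
      | nil => rw [hq] at this; simp at this
      | cons p q => simp
    · have : (m + 2) * (i + 1) = (m + 2) * i + (m + 2) := by ring
      omega
    · have : (2 * m + 2) * (i + 1) = (2 * m + 2) * i + (2 * m + 2) := by ring
      omega
  · intro l hl
    exact (mem_Cls.1 hl).2.2.2.1

/-- iteration of the one-step inequality -/
lemma Cls_iter {T : Site → List Site → Prop} (hT : Hit D T) (hG : Grow D T) (m n : ℕ) (u : Site)
    (f0 a0 p : ℕ) (hp : 2 * ((2 * m + 2) * p) ≤ a0) :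
    ((Cls D T m n u f0 a0 0).card : ℝ) * ((a0 : ℝ) / 2) ^ p ≤
      ((Cls D T m n u f0 a0 p).card : ℝ) * (((f0 + (m + 2) * p : ℕ) : ℝ) * Cm m) ^ p := by
  have key : ∀ i, i ≤ p → ((Cls D T m n u f0 a0 0).card : ℝ) * ((a0 : ℝ) / 2) ^ i ≤
      ((Cls D T m n u f0 a0 i).card : ℝ) * (((f0 + (m + 2) * p : ℕ) : ℝ) * Cm m) ^ i := by
    intro i
    induction i with
    | zero => intro _; simp
    | succ i ih =>
      intro hi
      have h1 := ih (by omega)
      have h2 := Cls_step hT hG m n u f0 a0 i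
      have h3 : (a0 : ℝ) / 2 ≤ ((a0 - (2 * m + 2) * i : ℕ) : ℝ) := by
        have e : (2 * m + 2) * i ≤ (2 * m + 2) * p := Nat.mul_le_mul_left _ (by omega)
        have e2 : (2 * m + 2) * i ≤ a0 := by omega
        rw [Nat.cast_sub e2]
        have e3 : 2 * ((2 * m + 2) * i) ≤ a0 := by omega
        have e4 : ((2 * ((2 * m + 2) * i) : ℕ) : ℝ) ≤ a0 := by exact_mod_cast e3
        push_cast at e4 ⊢
        linarith
      have h4 : ((Cls D T m n u f0 a0 i).card : ℝ) * ((a0 : ℝ) / 2) ≤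
          ((Cls D T m n u f0 a0 (i + 1)).card : ℝ) *
            (((f0 + (m + 2) * p : ℕ) : ℝ) * Cm m) := by
        have e1 : ((Cls D T m n u f0 a0 i).card : ℝ) * ((a0 - (2 * m + 2) * i : ℕ) : ℝ) ≤
            ((Cls D T m n u f0 a0 (i + 1)).card : ℝ) *
            (((f0 + (m + 2) * (i + 1) : ℕ) : ℝ) * Cm m) := by
          exact_mod_cast h2
        have e2 : (((f0 + (m + 2) * (i + 1) : ℕ) : ℝ)) ≤ ((f0 + (m + 2) * p : ℕ) : ℝ) := by
          have : (m + 2) * (i + 1) ≤ (m + 2) * p := Nat.mul_le_mul_left _ (by omega)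
          exact_mod_cast (by omega : f0 + (m + 2) * (i + 1) ≤ f0 + (m + 2) * p)
        calc ((Cls D T m n u f0 a0 i).card : ℝ) * ((a0 : ℝ) / 2)
            ≤ ((Cls D T m n u f0 a0 i).card : ℝ) * ((a0 - (2 * m + 2) * i : ℕ) : ℝ) :=
              mul_le_mul_of_nonneg_left h3 (Nat.cast_nonneg _)
          _ ≤ _ := e1
          _ ≤ _ := by
              apply mul_le_mul_of_nonneg_left _ (Nat.cast_nonneg _)
              exact mul_le_mul_of_nonneg_right e2 (Nat.cast_nonneg _)
      have hB : (0 : ℝ) ≤ (((f0 + (m + 2) * p : ℕ) : ℝ) * Cm m) := by positivity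
      calc ((Cls D T m n u f0 a0 0).card : ℝ) * ((a0 : ℝ) / 2) ^ (i + 1)
          = (((Cls D T m n u f0 a0 0).card : ℝ) * ((a0 : ℝ) / 2) ^ i) * ((a0 : ℝ) / 2) := by ring
        _ ≤ (((Cls D T m n u f0 a0 i).card : ℝ) *
              (((f0 + (m + 2) * p : ℕ) : ℝ) * Cm m) ^ i) * ((a0 : ℝ) / 2) :=
            mul_le_mul_of_nonneg_right h1 (by positivity)
        _ = (((Cls D T m n u f0 a0 i).card : ℝ) * ((a0 : ℝ) / 2)) *
              (((f0 + (m + 2) * p : ℕ) : ℝ) * Cm m) ^ i := by ring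
        _ ≤ (((Cls D T m n u f0 a0 (i + 1)).card : ℝ) *
            (((f0 + (m + 2) * p : ℕ) : ℝ) * Cm m)) *
              (((f0 + (m + 2) * p : ℕ) : ℝ) * Cm m) ^ i :=
            mul_le_mul_of_nonneg_right h4 (pow_nonneg hB _)
        _ = _ := by ring
  exact key p le_rfl

lemma Cls_card_le {T : Site → List Site → Prop} (m n : ℕ) (u : Site) (f0 a0 i : ℕ) {C b : ℝ}
    (hb : 1 ≤ b) (hC : 0 ≤ C) (h : ∀ j, (cc j : ℝ) ≤ C * b ^ j) :
    ((Cls D T m n u f0 a0 i).card : ℝ) ≤ (n + 12 * i + 1) * (C * b ^ (n + 12 * i)) := by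
  classical
  have h1 : (Cls D T m n u f0 a0 i).card ≤ ∑ j ∈ Finset.range (n + 12 * i + 1), cc j := by
    unfold Cls
    refine (Finset.card_filter_le _ _).trans ?_
    refine Finset.card_biUnion_le.trans ?_
    simp only [card_walks]
    exact le_rfl
  calc ((Cls D T m n u f0 a0 i).card : ℝ)
      ≤ ((∑ j ∈ Finset.range (n + 12 * i + 1), cc j : ℕ) : ℝ) := by exact_mod_cast h1
    _ = ∑ j ∈ Finset.range (n + 12 * i + 1), (cc j : ℝ) := by push_cast; rfl
    _ ≤ ∑ _j ∈ Finset.range (n + 12 * i + 1), C * b ^ (n + 12 * i) := by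
        apply Finset.sum_le_sum
        intro j hj
        rw [Finset.mem_range] at hj
        refine (h j).trans ?_
        apply mul_le_mul_of_nonneg_left _ hC
        exact pow_le_pow_right₀ hb (by omega)
    _ = (n + 12 * i + 1) * (C * b ^ (n + 12 * i)) := by
        rw [Finset.sum_const, Finset.card_range, nsmul_eq_mul]
        push_cast
        ring

lemma poly_exp (C δ : ℝ) (hC : 0 < C) (hδ : 0 < δ) : ∃ N : ℕ, ∀ n : ℕ, N ≤ n →
    (13 * (n : ℝ) + 1) * C ≤ Real.exp (δ * n) := by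
  obtain ⟨N, hN⟩ := exists_nat_ge ((28 * C) / δ ^ 2 + 1)
  refine ⟨max N 1, fun n hn => ?_⟩
  have hn1 : (1 : ℝ) ≤ n := by
    have : 1 ≤ n := (le_max_right _ _).trans hn
    exact_mod_cast this
  have hnN : (28 * C) / δ ^ 2 + 1 ≤ n := hN.trans (by exact_mod_cast (le_max_left _ _).trans hn)
  have h1 : (δ * n) ^ 2 / 2 ≤ Real.exp (δ * n) := by
    have := Real.quadratic_le_exp_of_nonneg (x := δ * n) (by positivity)
    have h0 : 0 ≤ δ * n := by positivity
    linarith
  refine le_trans ?_ h1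
  have h2 : 28 * C ≤ δ ^ 2 * n := by
    have : 28 * C / δ ^ 2 ≤ n := by linarith
    rw [div_le_iff₀ (by positivity)] at this
    linarith
  nlinarith

/-- **Walks with few target squares and many available squares are exponentially rare.** -/
theorem surg_rare {T : Site → List Site → Prop} (hT : Hit D T) (hG : Grow D T) (m : ℕ) (κ : ℝ)
    (hκ : 0 < κ) : ∃ ε : ℝ, 0 < ε ∧ ∃ n₀ : ℕ, ∀ n : ℕ, n₀ ≤ n → ∀ u : Site,
    ∀ S : Finset (List Site), (∀ l ∈ S, l ∈ walks n u ∧ ((FT T l).card : ℝ) ≤ ε * n ∧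
      κ * n ≤ ((D.U m l).card : ℝ)) → (S.card : ℝ) ≤ Real.exp (-ε * n) * mu ^ n := by
  obtain ⟨K, hK⟩ : ∃ K : ℝ, K = (Cm m : ℝ) := ⟨_, rfl⟩
  have hK1 : 1 ≤ K := by rw [hK]; exact_mod_cast Cm_pos m
  set G : ℝ := (Real.exp 1 * mu) ^ 12 with hGdef
  have hemu : 1 ≤ Real.exp 1 * mu := by
    have a := Real.one_le_exp (zero_le_one)
    have b := one_le_mu
    nlinarith
  have hG1 : 1 ≤ G := one_le_pow₀ hemu
  -- choice of δ
  set δ : ℝ := min (min 1 (κ / (4 * (2 * m + 2)))) (κ * Real.exp (-2) / (2 * (m + 3) * K * G))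
    with hδdef
  have hδ : 0 < δ := by
    rw [hδdef]
    have := Real.exp_pos (-2)
    refine lt_min (lt_min one_pos (by positivity)) (by positivity)
  have hδ1 : δ ≤ 1 := (min_le_left _ _).trans (min_le_left _ _)
  have hδ2 : δ ≤ κ / (4 * (2 * m + 2)) := (min_le_left _ _).trans (min_le_right _ _)
  have hδ3 : δ ≤ κ * Real.exp (-2) / (2 * (m + 3) * K * G) := min_le_right _ _
  obtain ⟨C, hC1, hC⟩ := cc_le (δ / 2) (by positivity)
  have hC0 : 0 < C := by linarith
  obtain ⟨N, hN⟩ := poly_exp (C * Real.exp 2) (δ / 2) (by positivity) (by positivity)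
  refine ⟨δ, hδ, max N 1, fun n hn u S hS => ?_⟩
  have hn1 : 1 ≤ n := (le_max_right _ _).trans hn
  have hnR : (1 : ℝ) ≤ n := by exact_mod_cast hn1
  have hn0 : (0 : ℝ) < n := by linarith
  have hNn := hN n ((le_max_left _ _).trans hn)
  obtain ⟨p, hp⟩ : ∃ p : ℕ, p = ⌊δ * n⌋₊ := ⟨_, rfl⟩
  have hp1 : (p : ℝ) ≤ δ * n := by rw [hp]; exact Nat.floor_le (by positivity)
  have hp2 : δ * n - 1 ≤ p := by
    rw [hp]
    have := Nat.lt_floor_add_one (δ * n)
    linarith
  have hpn : p ≤ n := by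
    have : (p : ℝ) ≤ n := by nlinarith
    exact_mod_cast this
  obtain ⟨a0, ha0⟩ : ∃ a0 : ℕ, a0 = ⌈κ * n⌉₊ := ⟨_, rfl⟩
  have ha1 : κ * n ≤ a0 := by rw [ha0]; exact Nat.le_ceil _
  -- S is contained in the class
  have hsub : S ⊆ Cls D T m n u p a0 0 := by
    intro l hl
    obtain ⟨h1, h2, h3⟩ := hS l hl
    rw [mem_walks'] at h1
    rw [mem_Cls]
    refine ⟨h1.2, by omega, by omega, ?_, ?_⟩
    · rw [hp, mul_zero, add_zero]
      exact Nat.le_floor h2
    · rw [ha0, mul_zero, add_zero]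
      exact Nat.ceil_le.2 h3
  have hcond : 2 * ((2 * m + 2) * p) ≤ a0 := by
    have h1 : (2 : ℝ) * ((2 * m + 2) * p) ≤ κ * n := by
      have h2 : (p : ℝ) ≤ κ / (4 * (2 * m + 2)) * n :=
        hp1.trans (mul_le_mul_of_nonneg_right hδ2 hn0.le)
      have h3 : (2 : ℝ) * ((2 * m + 2) * p) ≤
          2 * ((2 * m + 2) * (κ / (4 * (2 * m + 2)) * n)) := by
        apply mul_le_mul_of_nonneg_left _ (by norm_num)
        exact mul_le_mul_of_nonneg_left h2 (by positivity)
      have h4 : 2 * ((2 * m + 2) * (κ / (4 * (2 * m + 2)) * n)) = κ * n / 2 := by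
        field_simp
        ring
      have h5 : 0 < κ * n := by positivity
      linarith
    have h2 : (2 : ℝ) * ((2 * m + 2) * p) ≤ a0 := h1.trans ha1
    exact_mod_cast h2
  have hiter := Cls_iter hT hG m n u p a0 p hcond
  rw [← hK] at hiter
  have hb1 : 1 ≤ Real.exp (δ / 2) * mu := by
    have a := Real.one_le_exp (by positivity : 0 ≤ δ / 2)
    have b := one_le_mu
    nlinarith
  have hcard := Cls_card_le (D := D) (T := T) m n u p a0 p hb1 hC0.le hC
  -- numeric estimates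
  set f : ℝ := ((p + (m + 2) * p : ℕ) : ℝ) with hf
  have hfle : f ≤ (m + 3) * (δ * n) := by
    rw [hf]; push_cast
    have : (p : ℝ) + (m + 2) * p = (m + 3) * p := by ring
    rw [this]
    exact mul_le_mul_of_nonneg_left hp1 (by positivity)
  have hratio : f * K ≤ ((a0 : ℝ) / 2) * (Real.exp (-2) / G) := by
    have h1 : f * K ≤ (m + 3) * (δ * n) * K := mul_le_mul_of_nonneg_right hfle (by linarith)
    have h2 : (m + 3) * (δ * n) * K ≤ (m + 3) * ((κ * Real.exp (-2) / (2 * (m + 3) * K * G)) * n) * K := by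
      apply mul_le_mul_of_nonneg_right _ (by linarith)
      apply mul_le_mul_of_nonneg_left _ (by positivity)
      exact mul_le_mul_of_nonneg_right hδ3 hn0.le
    have h3 : (m + 3) * ((κ * Real.exp (-2) / (2 * (m + 3) * K * G)) * n) * K =
        (κ * n / 2) * (Real.exp (-2) / G) := by
      field_simp
    have h4 : (κ * n / 2) * (Real.exp (-2) / G) ≤ ((a0 : ℝ) / 2) * (Real.exp (-2) / G) := by
      apply mul_le_mul_of_nonneg_right _ (by positivity)
      linarith
    linarith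
  have ha0pos : (0 : ℝ) < (a0 : ℝ) / 2 := by
    have : 0 < κ * n := by positivity
    linarith
  have hf0 : 0 ≤ f := Nat.cast_nonneg _
  have hS1 : (S.card : ℝ) ≤ ((Cls D T m n u p a0 0).card : ℝ) := by
    exact_mod_cast Finset.card_le_card hsub
  have hmain : ((Cls D T m n u p a0 0).card : ℝ) ≤
      ((Cls D T m n u p a0 p).card : ℝ) * (Real.exp (-2) / G) ^ p := by
    have h1 : (f * K) ^ p ≤ (((a0 : ℝ) / 2) * (Real.exp (-2) / G)) ^ p :=
      pow_le_pow_left₀ (by positivity) hratio p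
    rw [mul_pow ((a0 : ℝ) / 2)] at h1
    have h2 : ((Cls D T m n u p a0 0).card : ℝ) * ((a0 : ℝ) / 2) ^ p ≤
        (((Cls D T m n u p a0 p).card : ℝ) * (Real.exp (-2) / G) ^ p) * ((a0 : ℝ) / 2) ^ p := by
      refine hiter.trans ?_
      calc ((Cls D T m n u p a0 p).card : ℝ) * (f * K) ^ p
          ≤ ((Cls D T m n u p a0 p).card : ℝ) *
            (((a0 : ℝ) / 2) ^ p * (Real.exp (-2) / G) ^ p) :=
            mul_le_mul_of_nonneg_left h1 (Nat.cast_nonneg _)
        _ = _ := by ring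
    exact le_of_mul_le_mul_right h2 (pow_pos ha0pos p)
  -- final computation
  have hfin : ((n : ℝ) + 12 * p + 1) * (C * (Real.exp (δ / 2) * mu) ^ (n + 12 * p)) *
      (Real.exp (-2) / G) ^ p ≤ Real.exp (-δ * n) * mu ^ n := by
    have hnp : (n : ℝ) + 12 * p + 1 ≤ 13 * n + 1 := by
      have : (p : ℝ) ≤ n := by exact_mod_cast hpn
      linarith
    have e1 : (Real.exp (δ / 2) * mu) ^ (n + 12 * p) =
        (Real.exp (δ / 2) * mu) ^ n * ((Real.exp (δ / 2) * mu) ^ 12) ^ p := by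
      rw [pow_add, pow_mul]
    have e2 : ((Real.exp (δ / 2) * mu) ^ 12) ^ p ≤ G ^ p := by
      apply pow_le_pow_left₀ (by positivity)
      rw [hGdef]
      apply pow_le_pow_left₀ (by positivity)
      apply mul_le_mul_of_nonneg_right _ mu_pos.le
      exact Real.exp_le_exp.2 (by linarith)
    have e3 : (Real.exp (-2) / G) ^ p * G ^ p = Real.exp (-2 * p) := by
      rw [← mul_pow, div_mul_cancel₀ _ (by positivity), ← Real.exp_nat_mul]
      congr 1; ring
    have e4 : Real.exp (-2 * p) ≤ Real.exp 2 * Real.exp (-2 * (δ * n)) := by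
      rw [← Real.exp_add]
      apply Real.exp_le_exp.2
      linarith
    have e5 : (Real.exp (δ / 2) * mu) ^ n = Real.exp (δ / 2 * n) * mu ^ n := by
      rw [mul_pow, ← Real.exp_nat_mul]
      congr 2; ring
    have hpos1 : 0 ≤ (Real.exp (-2) / G) ^ p := by positivity
    calc ((n : ℝ) + 12 * p + 1) * (C * (Real.exp (δ / 2) * mu) ^ (n + 12 * p)) *
        (Real.exp (-2) / G) ^ p
        ≤ (13 * n + 1) * (C * (Real.exp (δ / 2) * mu) ^ (n + 12 * p)) *
        (Real.exp (-2) / G) ^ p := by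
          apply mul_le_mul_of_nonneg_right _ hpos1
          exact mul_le_mul_of_nonneg_right hnp (by positivity)
      _ = (13 * n + 1) * C * (Real.exp (δ / 2 * n) * mu ^ n) *
          ((Real.exp (-2) / G) ^ p * ((Real.exp (δ / 2) * mu) ^ 12) ^ p) := by
          rw [e1, e5]; ring
      _ ≤ (13 * n + 1) * C * (Real.exp (δ / 2 * n) * mu ^ n) *
          ((Real.exp (-2) / G) ^ p * G ^ p) := by
          apply mul_le_mul_of_nonneg_left _ (by have := mu_pos; positivity)
          exact mul_le_mul_of_nonneg_left e2 hpos1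
      _ = (13 * n + 1) * C * (Real.exp (δ / 2 * n) * mu ^ n) * Real.exp (-2 * p) := by rw [e3]
      _ ≤ (13 * n + 1) * C * (Real.exp (δ / 2 * n) * mu ^ n) *
          (Real.exp 2 * Real.exp (-2 * (δ * n))) :=
          mul_le_mul_of_nonneg_left e4 (by have := mu_pos; positivity)
      _ = ((13 * n + 1) * (C * Real.exp 2)) * Real.exp (δ / 2 * n) *
          Real.exp (-2 * (δ * n)) * mu ^ n := by ring
      _ ≤ (Real.exp (δ / 2 * n)) * Real.exp (δ / 2 * n) *
          Real.exp (-2 * (δ * n)) * mu ^ n := by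
          apply mul_le_mul_of_nonneg_right _ (pow_nonneg mu_pos.le _)
          apply mul_le_mul_of_nonneg_right _ (Real.exp_pos _).le
          exact mul_le_mul_of_nonneg_right hNn (Real.exp_pos _).le
      _ = Real.exp (-δ * n) * mu ^ n := by
          rw [← Real.exp_add, ← Real.exp_add]
          congr 2; ring
  calc (S.card : ℝ) ≤ ((Cls D T m n u p a0 0).card : ℝ) := hS1
    _ ≤ ((Cls D T m n u p a0 p).card : ℝ) * (Real.exp (-2) / G) ^ p := hmain
    _ ≤ (((n : ℝ) + 12 * p + 1) * (C * (Real.exp (δ / 2) * mu) ^ (n + 12 * p))) *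
        (Real.exp (-2) / G) ^ p := mul_le_mul_of_nonneg_right hcard (by positivity)
    _ ≤ _ := hfin

end Pool.Agent.SawKes
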