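import Pool.Agent.SawKes.Surgery

/-!
How the number of available squares and of target squares changes in one surgery; the one-step
counting inequality.
-/

set_option autoImplicit false

open SawNu

namespace Pool.Agent.SawKes

lemma Avoid.take {r : Site → Prop} {l : List Site} (h : Avoid r l) (k : ℕ) :
    Avoid r (l.take k) := fun p hp => h p (List.mem_of_mem_take hp)

lemma Avoid.drop {r : Site → Prop} {l : List Site} (h : Avoid r l) (k : ℕ) :
    Avoid r (l.drop k) := fun p hp => h p (List.mem_of_mem_drop hp)

lemma Avoid.append {r : Site → Prop} {l l' : List Site} (h : Avoid r l) (h' : Avoid r l') :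
    Avoid r (l ++ l') := by
  intro p hp
  rcases List.mem_append.1 hp with hp | hp
  · exact h p hp
  · exact h' p hp

lemma Win.take {m : ℕ} {r : Site → Prop} {l : List Site} (h : Win m r l) (k : ℕ) :
    Win m r (l.take k) := by
  obtain ⟨A, s, B, hl, hm, hA, hB⟩ := h
  refine ⟨A.take k, s.take (k - A.length), B.take (k - (A ++ s).length), ?_, ?_, hA.take _,
    hB.take _⟩
  · rw [hl, List.take_append, List.take_append]
  · rw [List.length_take]; omega

lemma Win.drop {m : ℕ} {r : Site → Prop} {l : List Site} (h : Win m r l) (k : ℕ) :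
    Win m r (l.drop k) := by
  obtain ⟨A, s, B, hl, hm, hA, hB⟩ := h
  refine ⟨A.drop k, s.drop (k - A.length), B.drop (k - (A ++ s).length), ?_, ?_, hA.drop _,
    hB.drop _⟩
  · rw [hl, List.drop_append, List.drop_append]
  · rw [List.length_drop]; omega

lemma Win.append_right {m : ℕ} {r : Site → Prop} {l l' : List Site} (h : Win m r l)
    (h' : Avoid r l') : Win m r (l ++ l') := by
  obtain ⟨A, s, B, hl, hm, hA, hB⟩ := h
  exact ⟨A, s, B ++ l', by rw [hl, List.append_assoc], hm, hA, hB.append h'⟩

lemma Win.append_left {m : ℕ} {r : Site → Prop} {l l' : List Site} (h : Win m r l)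
    (h' : Avoid r l') : Win m r (l' ++ l) := by
  obtain ⟨A, s, B, hl, hm, hA, hB⟩ := h
  exact ⟨l' ++ A, s, B, by rw [hl]; simp, hm, h'.append hA, hB⟩

/-- If a window covers visits in `A` and in `B`, then a visit occurs among the last `m` sites
of `A`. -/
lemma win_straddle {m : ℕ} {r : Site → Prop} {A s B : List Site} (h : Win m r (A ++ s ++ B))
    (hs : 2 ≤ s.length) (hlast : Avoid r (A.drop (A.length - m))) :
    Avoid r A ∨ Avoid r B := by
  by_contra hc
  rw [not_or] at hc
  obtain ⟨h1, h2⟩ := hc
  unfold Avoid at h1 h2
  push Not at h1 h2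
  obtain ⟨p, hp, hrp⟩ := h1
  obtain ⟨q, hq, hrq⟩ := h2
  -- index of p
  obtain ⟨i, hi, hip⟩ := List.getElem_of_mem hp
  obtain ⟨j, hj, hjq⟩ := List.getElem_of_mem hq
  have hi2 : i < A.length - m := by
    by_contra hcon
    push Not at hcon
    apply hlast p _ hrp
    rw [List.mem_iff_getElem]
    refine ⟨i - (A.length - m), by rw [List.length_drop]; omega, ?_⟩
    rw [List.getElem_drop]
    rw [← hip]
    congr 1
    omega
  obtain ⟨A', s', B', hl, hm, hA', hB'⟩ := h
  have hP : (A ++ s ++ B)[i]'(by simp only [List.length_append]; omega) = p := by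
    rw [List.getElem_append_left (by simp only [List.length_append]; omega),
      List.getElem_append_left hi, hip]
  have hQ : (A ++ s ++ B)[A.length + s.length + j]'(by
      simp only [List.length_append]; omega) = q := by
    rw [List.getElem_append_right (by simp only [List.length_append]; omega)]
    rw [← hjq]
    congr 1
    simp only [List.length_append]; omega
  have hlen := congrArg List.length hl
  simp only [List.length_append] at hlen
  -- positions in A' s' B'
  have hiA : A'.length ≤ i := by
    by_contra hcon
    push Not at hcon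
    have : p ∈ A' := by
      rw [← hP]
      have e : (A ++ s ++ B)[i]'(by simp only [List.length_append]; omega) =
          (A' ++ s' ++ B')[i]'(by simp only [List.length_append]; omega) := by
        simp only [hl]
      rw [e, List.getElem_append_left (by simp only [List.length_append]; omega),
        List.getElem_append_left hcon]
      exact List.getElem_mem _
    exact hA' p this hrp
  have hjB : A.length + s.length + j < A'.length + s'.length := by
    by_contra hcon
    push Not at hcon
    have : q ∈ B' := by
      rw [← hQ]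
      have e : (A ++ s ++ B)[A.length + s.length + j]'(by
          simp only [List.length_append]; omega) =
          (A' ++ s' ++ B')[A.length + s.length + j]'(by
          simp only [List.length_append]; omega) := by
        simp only [hl]
      rw [e, List.getElem_append_right (by simp only [List.length_append]; omega)]
      exact List.getElem_mem _
    exact hB' q this hrq
  omega

variable {D : Reg}

lemma avoid_of_sq {D : Reg} {y : Site} {l : List Site} (h : ∀ q ∈ l, sq q ≠ y) :
    Avoid (D.r y) l := fun p hp hr => h p hp (D.sq_of y p hr)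

/-- a square that stays available -/
lemma Reg.U_stable {m : ℕ} {x y : Site} {A s B π : List Site}
    (hs : 2 ≤ s.length) (hπ : ∀ q ∈ π, D.r x q) (hyx : y ≠ x)
    (hys : ∀ q ∈ s, sq q ≠ y) (hyA : ∀ q ∈ A.drop (A.length - m), sq q ≠ y)
    (hy : y ∈ D.U m (A ++ s ++ B)) : y ∈ D.U m (A ++ π ++ B) := by
  rw [Reg.mem_U] at hy ⊢
  obtain ⟨h1, h2⟩ := hy
  have as : Avoid (D.r y) s := avoid_of_sq hys
  have aπ : Avoid (D.r y) π := by
    intro p hp hr
    have e1 := D.sq_of y p hr
    have e2 := D.sq_of x p (hπ p hp)
    exact hyx (e1.symm.trans e2)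
  refine ⟨?_, ?_⟩
  · rw [vc_append, vc_append, vc_eq_zero as] at h1
    rw [vc_append, vc_append, vc_eq_zero aπ]
    exact h1
  · rcases win_straddle h2 hs (avoid_of_sq hyA) with h | h
    · have h3 : Win m (D.r y) B := by
        have := h2.drop (A ++ s).length
        rwa [List.drop_left] at this
      exact h3.append_left (h.append aπ)
    · have h3 : Win m (D.r y) A := by
        have := h2.take A.length
        rwa [List.append_assoc, List.take_left] at this
      rw [List.append_assoc]
      exact h3.append_right (aπ.append h)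

/-- change of the number of available squares -/
lemma Reg.U_card {m : ℕ} {x : Site} {l A s B : List Site} {a b : Site}
    (h : Dec (D.r x) l A s B a b) (hab : a ≠ b) (hs : 2 ≤ s.length) (hm : s.length ≤ m + 1) :
    (D.U m l).card ≤ (D.U m (D.mv x l)).card + (2 * m + 2) := by
  classical
  have hsub : D.U m l ⊆ (D.U m (D.mv x l)) ∪ ({x} ∪ ((s.map sq).toFinset ∪
      ((A.drop (A.length - m)).map sq).toFinset)) := by
    intro y hy
    by_cases hyx : y = x
    · simp [hyx]
    by_cases hys : ∀ q ∈ s, sq q ≠ y
    · by_cases hyA : ∀ q ∈ A.drop (A.length - m), sq q ≠ y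
      · apply Finset.mem_union_left
        rw [Reg.mv_eq h]
        rw [h.eq] at hy
        exact Reg.U_stable hs (D.path_mem x a b h.ra h.rb hab) hyx hys hyA hy
      · push Not at hyA
        obtain ⟨q, hq, he⟩ := hyA
        apply Finset.mem_union_right
        apply Finset.mem_union_right
        apply Finset.mem_union_right
        rw [List.mem_toFinset, List.mem_map]
        exact ⟨q, hq, he⟩
    · push Not at hys
      obtain ⟨q, hq, he⟩ := hys
      apply Finset.mem_union_right
      apply Finset.mem_union_right
      apply Finset.mem_union_left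
      rw [List.mem_toFinset, List.mem_map]
      exact ⟨q, hq, he⟩
  refine (Finset.card_le_card hsub).trans ?_
  refine (Finset.card_union_le _ _).trans ?_
  have h1 := Finset.card_union_le ({x} : Finset Site) ((s.map sq).toFinset ∪
      ((A.drop (A.length - m)).map sq).toFinset)
  have h2 := Finset.card_union_le (s.map sq).toFinset ((A.drop (A.length - m)).map sq).toFinset
  have h3 : ((s.map sq).toFinset).card ≤ s.length := by
    have := List.toFinset_card_le (s.map sq); simpa using this
  have h4 : (((A.drop (A.length - m)).map sq).toFinset).card ≤ m := by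
    have := List.toFinset_card_le ((A.drop (A.length - m)).map sq)
    rw [List.length_map, List.length_drop] at this
    omega
  rw [Finset.card_singleton] at h1
  omega

open scoped Classical in
/-- visited squares with property `T` -/
noncomputable def FT (T : Site → List Site → Prop) (l : List Site) : Finset Site :=
  ((l.map sq).toFinset).filter (fun x => T x l)

/-- the target property is only created at `x` and at squares visited by the removed segment -/
def Grow (D : Reg) (T : Site → List Site → Prop) : Prop :=
  ∀ (x y : Site) (A s B π : List Site), y ≠ x → (∀ q ∈ s, sq q ≠ y) → (∀ q ∈ π, D.r x q) →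
    π ≠ [] → T y (A ++ π ++ B) → T y (A ++ s ++ B)

/-- change of the number of target squares -/
lemma FT_card {m : ℕ} {T : Site → List Site → Prop} (hT : Grow D T) {x : Site}
    {l A s B : List Site} {a b : Site}
    (h : Dec (D.r x) l A s B a b) (hab : a ≠ b) (hm : s.length ≤ m + 1) :
    (FT T (D.mv x l)).card ≤ (FT T l).card + (m + 2) := by
  classical
  have hsub : FT T (D.mv x l) ⊆ (FT T l) ∪ ({x} ∪ (s.map sq).toFinset) := by
    intro y hy
    by_cases hyx : y = x
    · simp [hyx]
    by_cases hys : ∀ q ∈ s, sq q ≠ y
    · apply Finset.mem_union_left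
      unfold FT at hy ⊢
      rw [Finset.mem_filter] at hy ⊢
      obtain ⟨h1, h2⟩ := hy
      rw [Reg.mv_eq h] at h1 h2
      have hπ := D.path_mem x a b h.ra h.rb hab
      have hne : D.path x a b ≠ [] := by
        intro h0
        have := D.path_head x a b h.ra h.rb hab
        rw [h0] at this
        simp at this
      refine ⟨?_, ?_⟩
      · rw [h.eq]
        rw [List.mem_toFinset, List.mem_map] at h1 ⊢
        obtain ⟨q, hq, he⟩ := h1
        refine ⟨q, ?_, he⟩
        rw [List.mem_append, List.mem_append] at hq ⊢
        rcases hq with (hq | hq) | hq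
        · exact Or.inl (Or.inl hq)
        · exfalso
          exact hyx (he.symm.trans (D.sq_of x q (hπ q hq)))
        · exact Or.inr hq
      · rw [h.eq]
        exact hT x y A s B _ hyx hys hπ hne h2
    · push Not at hys
      obtain ⟨q, hq, he⟩ := hys
      apply Finset.mem_union_right
      apply Finset.mem_union_right
      rw [List.mem_toFinset, List.mem_map]
      exact ⟨q, hq, he⟩
  refine (Finset.card_le_card hsub).trans ?_
  refine (Finset.card_union_le _ _).trans ?_
  have h1 := Finset.card_union_le ({x} : Finset Site) (s.map sq).toFinset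
  have h3 : ((s.map sq).toFinset).card ≤ s.length := by
    have := List.toFinset_card_le (s.map sq); simpa using this
  rw [Finset.card_singleton] at h1
  omega

/-- possible removed segments at the square `x` -/
noncomputable def segs (m : ℕ) (x : Site) : Finset (List Site) :=
  (Finset.range 12 ×ˢ Finset.range (m + 1)).biUnion (fun cj => walks cj.2 (glob x cj.1))

/-- bound for the number of segments -/
noncomputable def Cm (m : ℕ) : ℕ := 12 * ∑ j ∈ Finset.range (m + 1), cc j

lemma card_segs_le (m : ℕ) (x : Site) : (segs m x).card ≤ Cm m := by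
  classical
  unfold segs
  refine Finset.card_biUnion_le.trans ?_
  rw [Finset.sum_product]
  simp only [card_walks]
  rw [Finset.sum_const, Finset.card_range, smul_eq_mul, Cm]

lemma Cm_pos (m : ℕ) : 1 ≤ Cm m := by
  unfold Cm
  have h : cc 0 ≤ ∑ j ∈ Finset.range (m + 1), cc j :=
    Finset.single_le_sum (f := cc) (fun _ _ => Nat.zero_le _) (Finset.mem_range.2 (by omega))
  have := cc_pos 0
  omega

lemma mem_segs {m : ℕ} {x u : Site} {l A s B : List Site} {a b : Site}
    (h : Dec (D.r x) l A s B a b) (hm : s.length ≤ m + 1) (hs : 2 ≤ s.length)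
    (hl : IsWalk u l) : s ∈ segs m x := by
  classical
  unfold segs
  rw [Finset.mem_biUnion]
  refine ⟨(loc a, s.length - 1), ?_, ?_⟩
  · rw [Finset.mem_product, Finset.mem_range, Finset.mem_range]
    exact ⟨loc_lt a, by simp only; omega⟩
  · have ha := D.sq_of x a h.ra
    have hg : glob x (loc a) = a := by rw [← ha]; exact glob_loc a
    simp only
    rw [hg, mem_walks']
    refine ⟨by omega, h.head, ?_, ?_⟩
    · have := hl.chain
      rw [h.eq] at this
      exact this.left_of_append.right_of_append
    · have := hl.nodup
      rw [h.eq] at this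
      exact (List.nodup_append.1 (List.nodup_append.1 this).1).2.1

/-- the target holds at the square of the surgery -/
def Hit (D : Reg) (T : Site → List Site → Prop) : Prop :=
  ∀ (x : Site) (A B : List Site) (a b : Site), D.r x a → D.r x b → a ≠ b →
    Avoid (D.r x) A → Avoid (D.r x) B → T x (A ++ D.path x a b ++ B)

lemma mem_FT_mv {T : Site → List Site → Prop} (hT : Hit D T) {x : Site}
    {l A s B : List Site} {a b : Site} (h : Dec (D.r x) l A s B a b) (hab : a ≠ b) :
    x ∈ FT T (D.mv x l) := by
  classical
  unfold FT
  rw [Finset.mem_filter, Reg.mv_eq h]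
  refine ⟨?_, hT x A B a b h.ra h.rb hab h.hA h.hB⟩
  rw [List.mem_toFinset, List.mem_map]
  refine ⟨a, ?_, D.sq_of x a h.ra⟩
  have := D.path_head x a b h.ra h.rb hab
  rw [List.mem_append, List.mem_append]
  exact Or.inl (Or.inr (List.mem_of_mem_head? this))

/-- **one-step counting inequality** -/
theorem one_step {m : ℕ} {T : Site → List Site → Prop} (hT : Hit D T) (u : Site)
    (S S' : Finset (List Site)) (a f : ℕ)
    (hS : ∀ l ∈ S, IsWalk u l) (hU : ∀ l ∈ S, a ≤ (D.U m l).card)
    (hmv : ∀ l ∈ S, ∀ x ∈ D.U m l, D.mv x l ∈ S')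
    (hF : ∀ l ∈ S', (FT T l).card ≤ f) :
    S.card * a ≤ S'.card * (f * Cm m) := by
  classical
  have h1 : S.card * a ≤ (S.sigma (fun l => D.U m l)).card := by
    rw [Finset.card_sigma, ← smul_eq_mul]
    exact Finset.card_nsmul_le_sum _ _ _ hU
  have h2 : (S.sigma (fun l => D.U m l)).card ≤
      (S'.sigma (fun l => (FT T l).sigma (fun x => segs m x))).card := by
    apply Finset.card_le_card_of_injOn
      (fun lx : (Σ _ : List Site, Site) =>
        (⟨D.mv lx.2 lx.1, ⟨lx.2, mid (D.r lx.2) lx.1⟩⟩ :
          Σ _ : List Site, Σ _ : Site, List Site))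
    · rintro ⟨l, x⟩ hlx
      rw [Finset.mem_coe, Finset.mem_sigma] at hlx
      obtain ⟨hl, hx⟩ := hlx
      simp only at hl hx
      have hx' := Reg.mem_U.1 hx
      obtain ⟨A, s, B, a', b', hd, hab, hm, hs⟩ := exists_dec hx'.1 (hS l hl).nodup hx'.2
      rw [Finset.mem_coe, Finset.mem_sigma, Finset.mem_sigma]
      refine ⟨hmv l hl x hx, mem_FT_mv hT hd hab, ?_⟩
      simp only
      rw [hd.mid_eq]
      exact mem_segs hd hm hs (hS l hl)
    · rintro ⟨l, x⟩ hlx ⟨l', x'⟩ hlx' he
      rw [Finset.mem_coe, Finset.mem_sigma] at hlx hlx'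
      obtain ⟨hl, hx⟩ := hlx
      obtain ⟨hl', hx'⟩ := hlx'
      simp only at hl hx hl' hx'
      have hx1 := Reg.mem_U.1 hx
      have hx2 := Reg.mem_U.1 hx'
      obtain ⟨A, s, B, a1, b1, hd, hab, -, -⟩ := exists_dec hx1.1 (hS l hl).nodup hx1.2
      obtain ⟨A', s', B', a1', b1', hd', hab', -, -⟩ := exists_dec hx2.1 (hS l' hl').nodup hx2.2
      simp only [Sigma.mk.injEq, heq_eq_eq] at he
      obtain ⟨e1, e2, e3⟩ := he
      subst e2
      have k1 := Reg.mv_decode hd hab
      have k2 := Reg.mv_decode hd' hab'
      have : l = l' := by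
        rw [k1, k2, e1, e3]
      subst this
      rfl
  have h3 : (S'.sigma (fun l => (FT T l).sigma (fun x => segs m x))).card ≤
      S'.card * (f * Cm m) := by
    rw [Finset.card_sigma, ← smul_eq_mul]
    apply Finset.sum_le_card_nsmul
    intro l hl
    rw [Finset.card_sigma]
    calc ∑ x ∈ FT T l, (segs m x).card ≤ ∑ x ∈ FT T l, Cm m :=
          Finset.sum_le_sum (fun x _ => card_segs_le m x)
      _ = (FT T l).card * Cm m := by rw [Finset.sum_const, smul_eq_mul]
      _ ≤ f * Cm m := Nat.mul_le_mul_right _ (hF l hl)
  exact h1.trans (h2.trans h3)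

end Pool.Agent.SawKes
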