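import Pool.Agent.SawKes.Walk

/-!
Local surgery on self-avoiding walks: replace the part of the walk between the first and the last
visit of a small region by a fixed path inside the region.
-/

set_option autoImplicit false

open SawNu

namespace Pool.Agent.SawKes

/-- the index of the `3 × 4` rectangle containing `p` -/
def sq (p : Site) : Site := (p.1 / 3, p.2 / 4)

/-- code of the position in the rectangle -/
def loc (p : Site) : ℕ := (p.1 % 3).toNat + 3 * (p.2 % 4).toNat

/-- site with code `c` in the rectangle `x` -/
def glob (x : Site) (c : ℕ) : Site := (3 * x.1 + ((c % 3 : ℕ) : ℤ), 4 * x.2 + ((c / 3 : ℕ) : ℤ))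

lemma glob_loc (p : Site) : glob (sq p) (loc p) = p := by
  unfold glob sq loc
  ext <;> simp only <;> omega

lemma loc_lt (p : Site) : loc p < 12 := by
  unfold loc; omega

lemma sq_glob (x : Site) (c : ℕ) (h : c < 12) : sq (glob x c) = x := by
  unfold glob sq
  ext <;> simp only <;> omega

lemma loc_glob (x : Site) (c : ℕ) (h : c < 12) : loc (glob x c) = c := by
  unfold glob loc
  simp only
  omega

/-- no site of `l` satisfies `r` -/
def Avoid (r : Site → Prop) (l : List Site) : Prop := ∀ p ∈ l, ¬ r p

open scoped Classical in
/-- number of sites satisfying `r` -/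
noncomputable def vc (r : Site → Prop) (l : List Site) : ℕ := l.countP (fun p => decide (r p))

lemma vc_append (r : Site → Prop) (l l' : List Site) : vc r (l ++ l') = vc r l + vc r l' := by
  simp [vc]

lemma vc_eq_zero {r : Site → Prop} {l : List Site} (h : Avoid r l) : vc r l = 0 := by
  unfold vc
  rw [List.countP_eq_zero]
  intro p hp
  simpa using h p hp

lemma vc_le_length (r : Site → Prop) (l : List Site) : vc r l ≤ l.length := by
  unfold vc
  exact List.countP_le_length

/-- all visits of `r` happen in a time window -/
def Win (m : ℕ) (r : Site → Prop) (l : List Site) : Prop :=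
  ∃ A s B, l = A ++ s ++ B ∧ s.length ≤ m + 1 ∧ Avoid r A ∧ Avoid r B

open scoped Classical in
noncomputable def pre (r : Site → Prop) (l : List Site) : List Site :=
  l.takeWhile (fun p => !decide (r p))

open scoped Classical in
noncomputable def suf (r : Site → Prop) (l : List Site) : List Site :=
  (l.reverse.takeWhile (fun p => !decide (r p))).reverse

lemma pre_append {r : Site → Prop} {A s : List Site} {a : Site} (hA : Avoid r A)
    (hs : s.head? = some a) (ha : r a) : pre r (A ++ s) = A := by
  classical
  unfold pre
  rw [List.takeWhile_append_of_pos (by intro p hp; simpa using hA p hp)]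
  cases s with
  | nil => simp at hs
  | cons b s =>
    simp only [List.head?_cons, Option.some.injEq] at hs
    subst hs
    simp [ha]

lemma suf_append {r : Site → Prop} {s B : List Site} {b : Site} (hB : Avoid r B)
    (hs : s.getLast? = some b) (hb : r b) : suf r (s ++ B) = B := by
  have h := pre_append (r := r) (A := B.reverse) (s := s.reverse) (a := b)
    (fun p hp => hB p (List.mem_reverse.1 hp)) (by rw [List.head?_reverse]; exact hs) hb
  unfold pre at h
  unfold suf
  rw [List.reverse_append, h, List.reverse_reverse]

/-- middle part -/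
noncomputable def mid (r : Site → Prop) (l : List Site) : List Site :=
  (l.drop (pre r l).length).take (l.length - (pre r l).length - (suf r l).length)

/-- the decomposition of a list at the first and last visits -/
structure Dec (r : Site → Prop) (l A s B : List Site) (a b : Site) : Prop where
  eq : l = A ++ s ++ B
  hA : Avoid r A
  hB : Avoid r B
  head : s.head? = some a
  last : s.getLast? = some b
  ra : r a
  rb : r b

lemma Dec.pre_eq {r : Site → Prop} {l A s B : List Site} {a b : Site} (h : Dec r l A s B a b) :
    pre r l = A := by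
  rw [h.eq, List.append_assoc]
  apply pre_append h.hA _ h.ra
  rw [List.head?_append, h.head]; rfl

lemma Dec.suf_eq {r : Site → Prop} {l A s B : List Site} {a b : Site} (h : Dec r l A s B a b) :
    suf r l = B := by
  rw [h.eq]
  apply suf_append h.hB _ h.rb
  rw [List.getLast?_append, h.last]; rfl

lemma Dec.mid_eq {r : Site → Prop} {l A s B : List Site} {a b : Site} (h : Dec r l A s B a b) :
    mid r l = s := by
  unfold mid
  rw [h.pre_eq, h.suf_eq, h.eq, List.append_assoc, List.drop_left]
  have : (A ++ (s ++ B)).length - A.length - B.length = s.length := by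
    simp only [List.length_append]; omega
  rw [this, List.take_left]

/-- existence of the decomposition -/
lemma exists_dec {r : Site → Prop} {l : List Site} {m : ℕ} (h2 : 2 ≤ vc r l) (hn : l.Nodup)
    (hw : Win m r l) : ∃ A s B a b, Dec r l A s B a b ∧ a ≠ b ∧ s.length ≤ m + 1 ∧
      2 ≤ s.length := by
  classical
  -- shrink a window from the left and from the right
  have key : ∀ (k : ℕ) (A s B : List Site), s.length = k → l = A ++ s ++ B → Avoid r A →
      Avoid r B → s.length ≤ m + 1 → ∃ A s B a b, Dec r l A s B a b ∧ s.length ≤ m + 1 := by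
    intro k
    induction k with
    | zero =>
      intro A s B hk hl hA hB _
      have hs : s = [] := List.length_eq_zero_iff.1 hk
      subst hs
      exfalso
      rw [hl, List.append_nil, vc_append, vc_eq_zero hA, vc_eq_zero hB] at h2
      omega
    | succ k ih =>
      intro A s B hk hl hA hB hm
      obtain ⟨a, s', rfl⟩ : ∃ a s', s = a :: s' := by
        cases s with
        | nil => simp at hk
        | cons a s' => exact ⟨a, s', rfl⟩
      by_cases ha : r a
      · rcases List.eq_nil_or_concat s' with h0 | ⟨s'', b, h0⟩
        · subst h0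
          exact ⟨A, [a], B, a, a, ⟨hl, hA, hB, rfl, rfl, ha, ha⟩, hm⟩
        · subst h0
          by_cases hb : r b
          · refine ⟨A, a :: (s'' ++ [b]), B, a, b, ⟨by simpa using hl, hA, hB, rfl, ?_, ha, hb⟩,
              by simpa using hm⟩
            rw [← List.cons_append, List.getLast?_append]; rfl
          · apply ih A (a :: s'') (b :: B) (by simpa using hk) (by simpa using hl) hA
            · intro p hp
              rcases List.mem_cons.1 hp with rfl | hp
              · exact hb
              · exact hB p hp
            · simp only [List.concat_eq_append, List.length_cons, List.length_append,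
                List.length_nil] at hm ⊢
              omega
      · apply ih (A ++ [a]) s' B (by simpa using hk) (by simpa using hl) _ hB
        · simp only [List.length_cons] at hm; omega
        · intro p hp
          rcases List.mem_append.1 hp with hp | hp
          · exact hA p hp
          · rw [List.mem_singleton.1 hp]; exact ha
  obtain ⟨A, s, B, hl, hm, hA, hB⟩ := hw
  obtain ⟨A, s, B, a, b, hd, hm⟩ := key _ A s B rfl hl hA hB hm
  have hcount : 2 ≤ vc r s := by
    have := h2
    rw [hd.eq, vc_append, vc_append, vc_eq_zero hd.hA, vc_eq_zero hd.hB] at this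
    omega
  have hlen : 2 ≤ s.length := hcount.trans (vc_le_length r s)
  refine ⟨A, s, B, a, b, hd, ?_, hm, hlen⟩
  intro hab
  subst hab
  have hsn : s.Nodup := by
    rw [hd.eq] at hn
    exact (List.nodup_append.1 (List.nodup_append.1 hn).1).2.1
  obtain ⟨c, s', rfl⟩ : ∃ c s', s = c :: s' := by
    cases s with
    | nil => simp at hlen
    | cons c s' => exact ⟨c, s', rfl⟩
  have hc : c = a := by
    have := hd.head
    simpa using this
  subst hc
  have hs' : s' ≠ [] := by
    intro h0; subst h0; simp at hlen
  have h3 := hd.last
  rw [List.getLast?_cons] at h3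
  have h4 : s'.getLast? = some (s'.getLast hs') := List.getLast?_eq_some_getLast hs'
  rw [h4] at h3
  simp only [Option.getD_some, Option.some.injEq] at h3
  have h5 : c ∈ s' := by
    rw [← h3]; exact List.getLast_mem hs'
  exact (List.nodup_cons.1 hsn).1 h5

/-- a family of regions with connecting paths -/
structure Reg where
  r : Site → Site → Prop
  sq_of : ∀ x p, r x p → sq p = x
  path : Site → Site → Site → List Site
  path_head : ∀ x a b, r x a → r x b → a ≠ b → (path x a b).head? = some a
  path_last : ∀ x a b, r x a → r x b → a ≠ b → (path x a b).getLast? = some b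
  path_chain : ∀ x a b, r x a → r x b → a ≠ b → (path x a b).IsChain Adj
  path_nodup : ∀ x a b, r x a → r x b → a ≠ b → (path x a b).Nodup
  path_mem : ∀ x a b, r x a → r x b → a ≠ b → ∀ p ∈ path x a b, r x p
  path_len : ∀ x a b, r x a → r x b → a ≠ b → (path x a b).length ≤ 12

variable (D : Reg)

open scoped Classical in
/-- squares where a surgery is possible -/
noncomputable def Reg.U (m : ℕ) (l : List Site) : Finset Site :=
  ((l.map sq).toFinset).filter (fun x => 2 ≤ vc (D.r x) l ∧ Win m (D.r x) l)

lemma mem_of_vc_pos {r : Site → Prop} {l : List Site} (h : 0 < vc r l) : ∃ p ∈ l, r p := by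
  classical
  unfold vc at h
  rw [List.countP_pos_iff] at h
  obtain ⟨p, hp, h⟩ := h
  exact ⟨p, hp, by simpa using h⟩

lemma Reg.mem_U {D : Reg} {m : ℕ} {l : List Site} {x : Site} :
    x ∈ D.U m l ↔ 2 ≤ vc (D.r x) l ∧ Win m (D.r x) l := by
  classical
  rw [Reg.U, Finset.mem_filter]
  constructor
  · exact fun h => h.2
  · intro h
    refine ⟨?_, h⟩
    obtain ⟨p, hp, hr⟩ := mem_of_vc_pos (r := D.r x) (l := l) (by omega)
    rw [List.mem_toFinset, List.mem_map]
    exact ⟨p, hp, D.sq_of x p hr⟩

/-- the surgery -/
noncomputable def Reg.mv (x : Site) (l : List Site) : List Site :=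
  pre (D.r x) l ++ D.path x ((mid (D.r x) l).head?.getD 0) ((mid (D.r x) l).getLast?.getD 0) ++
    suf (D.r x) l

lemma Reg.mv_eq {D : Reg} {x : Site} {l A s B : List Site} {a b : Site}
    (h : Dec (D.r x) l A s B a b) : D.mv x l = A ++ D.path x a b ++ B := by
  unfold Reg.mv
  rw [h.pre_eq, h.suf_eq, h.mid_eq, h.head, h.last]
  rfl

/-- decomposition of the result -/
lemma Reg.dec_mv {D : Reg} {x : Site} {l A s B : List Site} {a b : Site}
    (h : Dec (D.r x) l A s B a b) (hab : a ≠ b) :
    Dec (D.r x) (D.mv x l) A (D.path x a b) B a b :=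
  ⟨Reg.mv_eq h, h.hA, h.hB, D.path_head x a b h.ra h.rb hab, D.path_last x a b h.ra h.rb hab,
    h.ra, h.rb⟩

/-- the walk is recovered from the result, the square and the removed segment -/
lemma Reg.mv_decode {D : Reg} {x : Site} {l A s B : List Site} {a b : Site}
    (h : Dec (D.r x) l A s B a b) (hab : a ≠ b) :
    l = pre (D.r x) (D.mv x l) ++ mid (D.r x) l ++ suf (D.r x) (D.mv x l) := by
  have h' := Reg.dec_mv h hab
  rw [h'.pre_eq, h'.suf_eq, h.mid_eq]
  exact h.eq

/-- properties of a walk -/
structure IsWalk (u : Site) (l : List Site) : Prop where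
  head : l.head? = some u
  chain : l.IsChain Adj
  nodup : l.Nodup

lemma mem_walks' {n : ℕ} {u : Site} {l : List Site} :
    l ∈ walks n u ↔ l.length = n + 1 ∧ IsWalk u l := by
  rw [mem_walks]
  constructor
  · rintro ⟨h1, h2, h3, h4⟩; exact ⟨h1, h2, h3, h4⟩
  · rintro ⟨h1, h2⟩; exact ⟨h1, h2.head, h2.chain, h2.nodup⟩

lemma Reg.mv_isWalk {D : Reg} {x u : Site} {l A s B : List Site} {a b : Site}
    (h : Dec (D.r x) l A s B a b) (hab : a ≠ b) (hl : IsWalk u l) : IsWalk u (D.mv x l) := by
  rw [Reg.mv_eq h]
  have hh := D.path_head x a b h.ra h.rb hab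
  have hla := D.path_last x a b h.ra h.rb hab
  have hch := D.path_chain x a b h.ra h.rb hab
  have hnd := D.path_nodup x a b h.ra h.rb hab
  have hmem := D.path_mem x a b h.ra h.rb hab
  have hl1 := hl.head
  have hl2 := hl.chain
  have hl3 := hl.nodup
  rw [h.eq] at hl1 hl2 hl3
  refine ⟨?_, ?_, ?_⟩
  · rw [List.append_assoc, List.head?_append, List.head?_append] at hl1 ⊢
    rw [h.head] at hl1
    rw [hh]
    exact hl1
  · rw [List.isChain_append, List.isChain_append] at hl2 ⊢
    obtain ⟨⟨c1, c2, c3⟩, c4, c5⟩ := hl2
    refine ⟨⟨c1, hch, ?_⟩, c4, ?_⟩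
    · rw [h.head] at c3; rw [hh]; exact c3
    · rw [List.getLast?_append, h.last] at c5
      rw [List.getLast?_append, hla]
      exact c5
  · rw [List.nodup_append, List.nodup_append] at hl3 ⊢
    obtain ⟨⟨c1, c2, c3⟩, c4, c5⟩ := hl3
    refine ⟨⟨c1, hnd, ?_⟩, c4, ?_⟩
    · intro p hp q hq he
      subst he
      exact h.hA p hp (hmem p hq)
    · intro p hp q hq he
      subst he
      rcases List.mem_append.1 hp with hp | hp
      · exact c5 p (List.mem_append_left _ hp) p hq rfl
      · exact h.hB p hq (hmem p hp)

lemma Reg.mv_length {D : Reg} {x : Site} {l A s B : List Site} {a b : Site}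
    (h : Dec (D.r x) l A s B a b) (hab : a ≠ b) : (D.mv x l).length ≤ l.length + 12 := by
  rw [Reg.mv_eq h, h.eq]
  have := D.path_len x a b h.ra h.rb hab
  simp only [List.length_append]
  omega

end Pool.Agent.SawKes
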