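import Pool.Agent.SawKes.Induct

/-!
Typical walks have many `3 × 4` rectangles with an edge over which a bump can be inserted
(a self-contained pattern theorem).
-/

set_option autoImplicit false

open SawNu

namespace Pool.Agent.SawKes

/-- for the codes `a ≠ b`: a path from `a` to `b` in the `3 × 4` rectangle covering `3, …, 8` -/
def tab1 : List (List ℕ) :=
  [[],
   [0, 3, 6, 7, 8, 5, 4, 1],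
   [0, 1, 4, 3, 6, 7, 8, 5, 2],
   [0, 1, 4, 5, 8, 7, 6, 3],
   [0, 3, 6, 7, 8, 5, 4],
   [0, 1, 4, 3, 6, 7, 8, 5],
   [0, 3, 4, 5, 8, 7, 6],
   [0, 3, 4, 5, 8, 11, 10, 9, 6, 7],
   [0, 3, 6, 7, 4, 5, 8],
   [0, 3, 4, 5, 8, 7, 6, 9],
   [0, 3, 4, 5, 8, 7, 6, 9, 10],
   [0, 3, 6, 7, 4, 5, 8, 11],
   [1, 4, 5, 8, 7, 6, 3, 0],
   [],
   [1, 4, 3, 6, 7, 8, 5, 2],
   [1, 4, 5, 8, 7, 6, 3],
   [1, 2, 5, 8, 7, 6, 3, 4],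
   [1, 4, 3, 6, 7, 8, 5],
   [1, 2, 5, 8, 7, 4, 3, 6],
   [1, 2, 5, 4, 3, 6, 9, 10, 11, 8, 7],
   [1, 2, 5, 4, 3, 6, 7, 8],
   [1, 2, 5, 8, 7, 4, 3, 6, 9],
   [1, 2, 5, 4, 3, 6, 7, 8, 11, 10],
   [1, 2, 5, 4, 3, 6, 7, 8, 11],
   [2, 1, 4, 5, 8, 7, 6, 3, 0],
   [2, 5, 8, 7, 6, 3, 4, 1],
   [],
   [2, 1, 4, 5, 8, 7, 6, 3],
   [2, 5, 8, 7, 6, 3, 4],
   [2, 1, 4, 3, 6, 7, 8, 5],
   [2, 5, 8, 7, 4, 3, 6],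
   [2, 5, 4, 3, 6, 9, 10, 11, 8, 7],
   [2, 5, 4, 3, 6, 7, 8],
   [2, 5, 8, 7, 4, 3, 6, 9],
   [2, 5, 4, 3, 6, 7, 8, 11, 10],
   [2, 5, 4, 3, 6, 7, 8, 11],
   [3, 6, 7, 8, 5, 4, 1, 0],
   [3, 6, 7, 8, 5, 4, 1],
   [3, 6, 7, 8, 5, 4, 1, 2],
   [],
   [3, 6, 7, 8, 5, 4],
   [3, 4, 7, 6, 9, 10, 11, 8, 5],
   [3, 4, 5, 8, 7, 6],
   [3, 4, 5, 8, 11, 10, 9, 6, 7],
   [3, 6, 7, 4, 5, 8],
   [3, 4, 5, 8, 7, 6, 9],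
   [3, 4, 5, 8, 7, 6, 9, 10],
   [3, 6, 7, 4, 5, 8, 11],
   [4, 5, 8, 7, 6, 3, 0],
   [4, 5, 8, 7, 6, 3, 0, 1],
   [4, 3, 6, 7, 8, 5, 2],
   [4, 5, 8, 7, 6, 3],
   [],
   [4, 3, 6, 7, 8, 5],
   [4, 3, 0, 1, 2, 5, 8, 7, 6],
   [4, 5, 2, 1, 0, 3, 6, 9, 10, 11, 8, 7],
   [4, 5, 2, 1, 0, 3, 6, 7, 8],
   [4, 3, 0, 1, 2, 5, 8, 7, 6, 9],
   [4, 5, 2, 1, 0, 3, 6, 7, 8, 11, 10],
   [4, 5, 2, 1, 0, 3, 6, 7, 8, 11],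
   [5, 8, 7, 6, 3, 4, 1, 0],
   [5, 8, 7, 6, 3, 4, 1],
   [5, 8, 7, 6, 3, 4, 1, 2],
   [5, 4, 7, 8, 11, 10, 9, 6, 3],
   [5, 8, 7, 6, 3, 4],
   [],
   [5, 8, 7, 4, 3, 6],
   [5, 4, 3, 6, 9, 10, 11, 8, 7],
   [5, 4, 3, 6, 7, 8],
   [5, 8, 7, 4, 3, 6, 9],
   [5, 4, 3, 6, 7, 8, 11, 10],
   [5, 4, 3, 6, 7, 8, 11],
   [6, 7, 8, 5, 4, 3, 0],
   [6, 7, 8, 5, 4, 3, 0, 1],
   [6, 3, 4, 7, 8, 5, 2],
   [6, 7, 8, 5, 4, 3],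
   [6, 7, 8, 5, 2, 1, 0, 3, 4],
   [6, 3, 4, 7, 8, 5],
   [],
   [6, 3, 4, 5, 8, 7],
   [6, 7, 4, 3, 0, 1, 2, 5, 8],
   [6, 3, 4, 5, 8, 7, 10, 9],
   [6, 3, 4, 5, 8, 7, 10],
   [6, 3, 4, 5, 8, 7, 10, 11],
   [7, 6, 9, 10, 11, 8, 5, 4, 3, 0],
   [7, 8, 11, 10, 9, 6, 3, 4, 5, 2, 1],
   [7, 8, 11, 10, 9, 6, 3, 4, 5, 2],
   [7, 6, 9, 10, 11, 8, 5, 4, 3],
   [7, 8, 11, 10, 9, 6, 3, 0, 1, 2, 5, 4],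
   [7, 8, 11, 10, 9, 6, 3, 4, 5],
   [7, 8, 5, 4, 3, 6],
   [],
   [7, 6, 3, 4, 5, 8],
   [7, 8, 5, 4, 3, 6, 9],
   [7, 8, 5, 4, 3, 6, 9, 10],
   [7, 6, 3, 4, 5, 8, 11],
   [8, 5, 4, 7, 6, 3, 0],
   [8, 7, 6, 3, 4, 5, 2, 1],
   [8, 7, 6, 3, 4, 5, 2],
   [8, 5, 4, 7, 6, 3],
   [8, 7, 6, 3, 0, 1, 2, 5, 4],
   [8, 7, 6, 3, 4, 5],
   [8, 7, 4, 5, 2, 1, 0, 3, 6],
   [8, 5, 4, 3, 6, 7],
   [],
   [8, 5, 4, 3, 6, 7, 10, 9],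
   [8, 5, 4, 3, 6, 7, 10],
   [8, 5, 4, 3, 6, 7, 10, 11],
   [9, 6, 7, 8, 5, 4, 3, 0],
   [9, 6, 7, 8, 5, 4, 3, 0, 1],
   [9, 6, 3, 4, 7, 8, 5, 2],
   [9, 6, 7, 8, 5, 4, 3],
   [9, 6, 7, 8, 5, 2, 1, 0, 3, 4],
   [9, 6, 3, 4, 7, 8, 5],
   [9, 10, 7, 8, 5, 4, 3, 6],
   [9, 6, 3, 4, 5, 8, 7],
   [9, 10, 7, 6, 3, 4, 5, 8],
   [],
   [9, 6, 3, 4, 5, 8, 7, 10],
   [9, 10, 7, 6, 3, 4, 5, 8, 11],
   [10, 11, 8, 5, 4, 7, 6, 3, 0],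
   [10, 11, 8, 7, 6, 3, 4, 5, 2, 1],
   [10, 11, 8, 7, 6, 3, 4, 5, 2],
   [10, 11, 8, 5, 4, 7, 6, 3],
   [10, 11, 8, 7, 6, 3, 0, 1, 2, 5, 4],
   [10, 11, 8, 7, 6, 3, 4, 5],
   [10, 7, 8, 5, 4, 3, 6],
   [10, 11, 8, 5, 4, 3, 6, 7],
   [10, 7, 6, 3, 4, 5, 8],
   [10, 7, 8, 5, 4, 3, 6, 9],
   [],
   [10, 7, 6, 3, 4, 5, 8, 11],
   [11, 8, 5, 4, 7, 6, 3, 0],
   [11, 8, 7, 6, 3, 4, 5, 2, 1],
   [11, 8, 7, 6, 3, 4, 5, 2],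
   [11, 8, 5, 4, 7, 6, 3],
   [11, 8, 7, 6, 3, 0, 1, 2, 5, 4],
   [11, 8, 7, 6, 3, 4, 5],
   [11, 10, 7, 8, 5, 4, 3, 6],
   [11, 8, 5, 4, 3, 6, 7],
   [11, 10, 7, 6, 3, 4, 5, 8],
   [11, 10, 7, 8, 5, 4, 3, 6, 9],
   [11, 8, 5, 4, 3, 6, 7, 10],
   []]

/-- for the codes `a ≠ b` in `3, …, 8`: a path `A ++ [c, d] ++ B` from `a` to `b` inside
`3, …, 8` and free sites `e, f` such that `c e f d` is a path -/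
def tab2 : List (List ℕ × ℕ × ℕ × List ℕ × ℕ × ℕ) :=
  [([], 0, 0, [], 0, 0),
   ([], 0, 0, [], 0, 0),
   ([], 0, 0, [], 0, 0),
   ([], 0, 0, [], 0, 0),
   ([], 0, 0, [], 0, 0),
   ([], 0, 0, [], 0, 0),
   ([], 0, 0, [], 0, 0),
   ([], 0, 0, [], 0, 0),
   ([], 0, 0, [], 0, 0),
   ([], 0, 0, [], 0, 0),
   ([], 0, 0, [], 0, 0),
   ([], 0, 0, [], 0, 0),
   ([], 0, 0, [], 0, 0),
   ([], 0, 0, [], 0, 0),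
   ([], 0, 0, [], 0, 0),
   ([], 0, 0, [], 0, 0),
   ([], 0, 0, [], 0, 0),
   ([], 0, 0, [], 0, 0),
   ([], 0, 0, [], 0, 0),
   ([], 0, 0, [], 0, 0),
   ([], 0, 0, [], 0, 0),
   ([], 0, 0, [], 0, 0),
   ([], 0, 0, [], 0, 0),
   ([], 0, 0, [], 0, 0),
   ([], 0, 0, [], 0, 0),
   ([], 0, 0, [], 0, 0),
   ([], 0, 0, [], 0, 0),
   ([], 0, 0, [], 0, 0),
   ([], 0, 0, [], 0, 0),
   ([], 0, 0, [], 0, 0),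
   ([], 0, 0, [], 0, 0),
   ([], 0, 0, [], 0, 0),
   ([], 0, 0, [], 0, 0),
   ([], 0, 0, [], 0, 0),
   ([], 0, 0, [], 0, 0),
   ([], 0, 0, [], 0, 0),
   ([], 0, 0, [], 0, 0),
   ([], 0, 0, [], 0, 0),
   ([], 0, 0, [], 0, 0),
   ([], 0, 0, [], 0, 0),
   ([], 3, 4, [], 6, 7),
   ([], 3, 4, [5], 6, 7),
   ([], 3, 6, [], 4, 7),
   ([3], 4, 7, [], 5, 8),
   ([], 3, 4, [5, 8], 6, 7),
   ([], 0, 0, [], 0, 0),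
   ([], 0, 0, [], 0, 0),
   ([], 0, 0, [], 0, 0),
   ([], 0, 0, [], 0, 0),
   ([], 0, 0, [], 0, 0),
   ([], 0, 0, [], 0, 0),
   ([], 4, 3, [], 7, 6),
   ([], 0, 0, [], 0, 0),
   ([], 4, 5, [], 7, 8),
   ([], 4, 7, [6], 5, 8),
   ([], 4, 7, [], 3, 6),
   ([], 4, 7, [8], 3, 6),
   ([], 0, 0, [], 0, 0),
   ([], 0, 0, [], 0, 0),
   ([], 0, 0, [], 0, 0),
   ([], 0, 0, [], 0, 0),
   ([], 0, 0, [], 0, 0),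
   ([], 0, 0, [], 0, 0),
   ([], 5, 4, [3], 8, 7),
   ([], 5, 4, [], 8, 7),
   ([], 0, 0, [], 0, 0),
   ([], 5, 4, [3, 6], 8, 7),
   ([5], 4, 7, [], 3, 6),
   ([], 5, 8, [], 4, 7),
   ([], 0, 0, [], 0, 0),
   ([], 0, 0, [], 0, 0),
   ([], 0, 0, [], 0, 0),
   ([], 0, 0, [], 0, 0),
   ([], 0, 0, [], 0, 0),
   ([], 0, 0, [], 0, 0),
   ([], 6, 3, [], 7, 4),
   ([6], 7, 4, [], 8, 5),
   ([6, 3], 4, 5, [], 7, 8),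
   ([], 0, 0, [], 0, 0),
   ([], 6, 7, [], 3, 4),
   ([], 6, 7, [8], 3, 4),
   ([], 0, 0, [], 0, 0),
   ([], 0, 0, [], 0, 0),
   ([], 0, 0, [], 0, 0),
   ([], 0, 0, [], 0, 0),
   ([], 0, 0, [], 0, 0),
   ([], 0, 0, [], 0, 0),
   ([], 7, 4, [3], 8, 5),
   ([], 7, 4, [], 6, 3),
   ([], 7, 4, [5], 6, 3),
   ([], 7, 6, [], 4, 3),
   ([], 0, 0, [], 0, 0),
   ([], 7, 8, [], 4, 5),
   ([], 0, 0, [], 0, 0),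
   ([], 0, 0, [], 0, 0),
   ([], 0, 0, [], 0, 0),
   ([], 0, 0, [], 0, 0),
   ([], 0, 0, [], 0, 0),
   ([], 0, 0, [], 0, 0),
   ([8, 5], 4, 3, [], 7, 6),
   ([8], 7, 4, [], 6, 3),
   ([], 8, 5, [], 7, 4),
   ([], 8, 7, [6], 5, 4),
   ([], 8, 7, [], 5, 4),
   ([], 0, 0, [], 0, 0),
   ([], 0, 0, [], 0, 0),
   ([], 0, 0, [], 0, 0),
   ([], 0, 0, [], 0, 0),
   ([], 0, 0, [], 0, 0),
   ([], 0, 0, [], 0, 0),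
   ([], 0, 0, [], 0, 0),
   ([], 0, 0, [], 0, 0),
   ([], 0, 0, [], 0, 0),
   ([], 0, 0, [], 0, 0),
   ([], 0, 0, [], 0, 0),
   ([], 0, 0, [], 0, 0),
   ([], 0, 0, [], 0, 0),
   ([], 0, 0, [], 0, 0),
   ([], 0, 0, [], 0, 0),
   ([], 0, 0, [], 0, 0),
   ([], 0, 0, [], 0, 0),
   ([], 0, 0, [], 0, 0),
   ([], 0, 0, [], 0, 0),
   ([], 0, 0, [], 0, 0),
   ([], 0, 0, [], 0, 0),
   ([], 0, 0, [], 0, 0),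
   ([], 0, 0, [], 0, 0),
   ([], 0, 0, [], 0, 0),
   ([], 0, 0, [], 0, 0),
   ([], 0, 0, [], 0, 0),
   ([], 0, 0, [], 0, 0),
   ([], 0, 0, [], 0, 0),
   ([], 0, 0, [], 0, 0),
   ([], 0, 0, [], 0, 0),
   ([], 0, 0, [], 0, 0),
   ([], 0, 0, [], 0, 0),
   ([], 0, 0, [], 0, 0),
   ([], 0, 0, [], 0, 0),
   ([], 0, 0, [], 0, 0),
   ([], 0, 0, [], 0, 0),
   ([], 0, 0, [], 0, 0),
   ([], 0, 0, [], 0, 0),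
   ([], 0, 0, [], 0, 0),
   ([], 0, 0, [], 0, 0)]

/-- adjacency of codes -/
def adjN (c d : ℕ) : Bool :=
  (c % 3 - d % 3) + (d % 3 - c % 3) + (c / 3 - d / 3) + (d / 3 - c / 3) == 1

lemma adj_glob (x : Site) {c d : ℕ} (h : adjN c d = true) : Adj (glob x c) (glob x d) := by
  unfold adjN at h
  rw [beq_iff_eq] at h
  have h1 : (glob x d - glob x c).1 = ((d % 3 : ℕ) : ℤ) - ((c % 3 : ℕ) : ℤ) := by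
    simp only [glob, Prod.fst_sub]; ring
  have h2 : (glob x d - glob x c).2 = ((d / 3 : ℕ) : ℤ) - ((c / 3 : ℕ) : ℤ) := by
    simp only [glob, Prod.snd_sub]; ring
  unfold Adj
  rw [h1, h2]
  generalize c % 3 = a at *
  generalize d % 3 = b at *
  generalize c / 3 = a' at *
  generalize d / 3 = b' at *
  rcases abs_cases ((b : ℤ) - a) with h3 | h3 <;> rcases abs_cases ((b' : ℤ) - a') with h4 | h4 <;>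
    omega

/-- check of one entry of the first table -/
def ok1 (a b : ℕ) (l : List ℕ) : Bool :=
  l.head? == some a && l.getLast? == some b &&
  decide (l.IsChain (fun c d => adjN c d = true)) && decide l.Nodup &&
  l.all (fun c => decide (c < 12)) && (List.range 6).all (fun i => l.contains (i + 3)) &&
  decide (l.length ≤ 12)

lemma tab1_ok : (List.range 12).all (fun a => (List.range 12).all (fun b =>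
    a == b || ok1 a b (tab1.getD (12 * a + b) []))) = true := by
  decide +kernel

/-- check of one entry of the second table -/
def ok2 (a b : ℕ) (o : List ℕ × ℕ × ℕ × List ℕ × ℕ × ℕ) : Bool :=
  let l := o.1 ++ [o.2.1, o.2.2.1] ++ o.2.2.2.1
  l.head? == some a && l.getLast? == some b &&
  decide (l.IsChain (fun c d => adjN c d = true)) && decide l.Nodup &&
  l.all (fun c => decide (3 ≤ c) && decide (c < 9)) &&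
  decide (l.length ≤ 12) &&
  (decide (3 ≤ o.2.2.2.2.1) && decide (o.2.2.2.2.1 < 9)) &&
  (decide (3 ≤ o.2.2.2.2.2) && decide (o.2.2.2.2.2 < 9)) &&
  !l.contains o.2.2.2.2.1 && !l.contains o.2.2.2.2.2 &&
  adjN o.2.1 o.2.2.2.2.1 && adjN o.2.2.2.2.1 o.2.2.2.2.2 && adjN o.2.2.2.2.2 o.2.2.1

/-- a default entry -/
def e0 : List ℕ × ℕ × ℕ × List ℕ × ℕ × ℕ := ([], 0, 0, [], 0, 0)

lemma tab2_ok : (List.range 6).all (fun a => (List.range 6).all (fun b =>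
    a == b || ok2 (a + 3) (b + 3) (tab2.getD (12 * (a + 3) + (b + 3)) e0))) = true := by
  decide +kernel

end Pool.Agent.SawKes
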